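import Pool.Agent.CPG.Final

set_option autoImplicit false

/-!
# CPG: the bad weights are dense for every `h → ∞`
-/

namespace Pool.Agent.CPG

open Filter Topology

theorem compact_Wt (h : ℕ → ℝ) : CompactSpace (Wt h) := by
  rw [← isCompact_iff_compactSpace]
  refine IsCompact.of_isClosed_subset (isCompact_univ_pi (s := fun n => Set.Icc (1 : ℝ) (h n))
    fun n => isCompact_Icc) ?_ (fun b hb n _ => ⟨(hb n).1, (hb n).2.1⟩)
  have : Wt h = ⋂ n, {b : ℕ → ℝ | 1 ≤ b n ∧ b n ≤ h n ∧ b (n + 1) ≤ 2 * b n} := by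
    ext b
    simp [Wt]
  rw [this]
  refine isClosed_iInter fun n => ?_
  refine (isClosed_le continuous_const (continuous_apply n)).inter
    ((isClosed_le (continuous_apply n) continuous_const).inter
      (isClosed_le (continuous_apply (n + 1)) (continuous_const.mul (continuous_apply n))))

theorem dense_of_gen (hP : T_PRE) {Q : (ℕ → ℝ) → Prop}
    (hQ : ∀ h : ℕ → ℝ, (∀ n, 1 ≤ h n) → Tendsto h atTop atTop →
      Tendsto (fun n : ℕ => Real.log (h n) / n) atTop (𝓝 0) →
      ∀ᶠ b in residual (Wt h), Q b.1)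
    (h : ℕ → ℝ) (h1 : ∀ n, 1 ≤ h n) (h2 : Tendsto h atTop atTop) :
    Dense {b : Wt h | Q b.1} := by
  rw [dense_iff_inter_open]
  intro U hU hne
  obtain ⟨b₀, hb₀⟩ := hne
  obtain ⟨J, hJ⟩ := hP h U hU b₀ hb₀
  let h' : ℕ → ℝ := fun n => if n < J then h n else min (h n) (Real.exp (Real.sqrt n))
  have hh : ∀ n, h' n ≤ h n := by
    intro n
    by_cases hn : n < J
    · simp [h', hn]
    · simp [h', hn]
  have hh1 : ∀ n, 1 ≤ h' n := by
    intro n
    by_cases hn : n < J
    · simpa [h', hn] using h1 n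
    · simp only [h', hn, if_false]
      exact le_min (h1 n) (Real.one_le_exp (Real.sqrt_nonneg _))
  have hs : Tendsto (fun n : ℕ => Real.sqrt n) atTop atTop :=
    Real.tendsto_sqrt_atTop.comp tendsto_natCast_atTop_atTop
  have hh2 : Tendsto h' atTop atTop := by
    rw [tendsto_atTop]
    intro c
    filter_upwards [(tendsto_atTop.1 h2) c,
      (tendsto_atTop.1 (Real.tendsto_exp_atTop.comp hs)) c, eventually_ge_atTop J] with n e1 e2 e3
    simp only [h', not_lt.2 e3, if_false]
    exact le_min e1 e2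
  have hh3 : Tendsto (fun n : ℕ => Real.log (h' n) / n) atTop (𝓝 0) := by
    have hz : Tendsto (fun n : ℕ => Real.sqrt n / n) atTop (𝓝 0) := by
      simp_rw [Real.sqrt_div_self']
      simp only [one_div]
      exact hs.inv_tendsto_atTop
    refine tendsto_of_tendsto_of_tendsto_of_le_of_le' tendsto_const_nhds hz ?_ ?_
    · filter_upwards with n
      exact div_nonneg (Real.log_nonneg (hh1 n)) (Nat.cast_nonneg n)
    · filter_upwards [eventually_ge_atTop J] with n e3
      refine div_le_div_of_nonneg_right ?_ (Nat.cast_nonneg n)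
      rw [Real.log_le_iff_le_exp (by linarith [hh1 n])]
      simp only [h', not_lt.2 e3, if_false]
      exact min_le_right _ _
  have hr := hQ h' hh1 hh2 hh3
  have := compact_Wt h'
  have hd : Dense {b : Wt h' | Q b.1} := dense_of_mem_residual hr
  let ι : Wt h' → Wt h := fun b =>
    ⟨b.1, fun n => ⟨(b.2 n).1, (b.2 n).2.1.trans (hh n), (b.2 n).2.2⟩⟩
  have hι : Continuous ι := Continuous.subtype_mk continuous_subtype_val _
  have hb' : (fun n => if n < J then b₀.1 n else 1) ∈ Wt h' := by
    intro n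
    have hb := b₀.2 n
    by_cases hn : n < J
    · by_cases hn1 : n + 1 < J
      · simp only [hn, hn1, if_true, h']
        exact hb
      · simp only [hn, hn1, if_true, if_false, h']
        exact ⟨hb.1, hb.2.1, by linarith [hb.1]⟩
    · have hn1 : ¬ n + 1 < J := by omega
      simp only [hn, hn1, if_false]
      exact ⟨le_rfl, hh1 n, by norm_num⟩
  obtain ⟨b, hbU, hbQ⟩ := (dense_iff_inter_open.1 hd) (ι ⁻¹' U) (hU.preimage hι)
    ⟨⟨_, hb'⟩, hJ _ fun n hn => by simp [ι, hn]⟩
  exact ⟨ι b, hbU, hbQ⟩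

end Pool.Agent.CPG
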