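import Pool.Agent.CPG.Targets

set_option autoImplicit false

/-!
# CPG: CNG, the weight depends only on the data before a stage
-/

namespace Pool.Agent.CPG

open Pool.Agent.CPW

namespace CNG_

variable {s s' : Sq} {K : ℕ}

lemma x_eq (h : Agr s s' K) : ∀ k, k ≤ 2 * K → x s k = x s' k := by
  intro k
  induction k using Nat.strong_induction_on with
  | _ k ih =>
    intro hk
    cases k with
    | zero => rw [x, x]
    | succ k =>
      have hk2 : k / 2 < K := by omega
      rw [x, x, (h.2 _ hk2).2, ih (k / 2) (by omega) (by omega)]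

lemma al_eq (h : Agr s s' K) : ∀ k, k ≤ 2 * K → al s k = al s' k := by
  intro k
  induction k using Nat.strong_induction_on with
  | _ k ih =>
    intro hk
    cases k with
    | zero => rw [al, al]
    | succ k =>
      have hk2 : k / 2 < K := by omega
      have hE : Ep s (k / 2) = Ep s' (k / 2) := by
        unfold Ep
        rw [h.1 _ hk2.le]
      rw [al, al, hE, ih (k / 2) (by omega) (by omega)]

lemma bn_eq (h : Agr s s' K) (k : ℕ) (hk : k ≤ 2 * K) (n : ℕ) : bn s k n = bn s' k n := by
  cases k with
  | zero => rw [bn, bn]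
  | succ k =>
    have hk2 : k / 2 < K := by omega
    have hL : Lp s (k / 2) = Lp s' (k / 2) := by
      unfold Lp
      rw [h.1 _ hk2.le]
    rw [bn, bn, hL, h.1 _ hk2.le, (h.2 _ hk2).1, (h.2 _ hk2).2]

lemma bK_eq (h : Agr s s' K) : ∀ i, i ≤ K → ∀ n, bK s i n = bK s' i n := by
  intro i
  induction i with
  | zero =>
    intro _ n
    rw [bK, bK]
  | succ i ih =>
    intro hi n
    have hi' : i < K := by omega
    have hT : Tp s i = Tp s' i := by
      unfold Tp
      rw [h.1 _ hi'.le]
    have hU : Up s i = Up s' i := by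
      unfold Up
      rw [h.1 _ hi'.le]
    have he : et s i = et s' i := by
      unfold et
      rw [h.1 _ hi'.le, al_eq h i (by omega)]
    rw [bK, bK, hT, hU, he, h.1 _ hi'.le, (h.2 _ hi').1, (h.2 _ hi').2, x_eq h i (by omega),
      ih hi'.le, ih hi'.le, bn_eq h i (by omega)]

end CNG_

theorem p_CNG : T_CNG := fun _ _ K h n => CNG_.bK_eq h K le_rfl n

end Pool.Agent.CPG
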