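import Pool.Agent.CPG.Targets

set_option autoImplicit false

/-!
# CPG, DBL: another open dense set of weights
-/

namespace Pool.Agent.CPG

open Polynomial Filter Topology
open Pool.Agent.CycP Pool.Agent.CPW

namespace DBL_

/-- the new weight -/
noncomputable def nb (b₀ : ℕ → ℝ) (J N l n : ℕ) : ℝ :=
  if n < J then b₀ n else if n < N then 1 else if n ≤ N + l then 2 ^ (n - N) else 1

theorem nb_mem {h b₀ : ℕ → ℝ} {J N l : ℕ} (hh : ∀ n, 1 ≤ h n)
    (hb : ∀ n, 1 ≤ b₀ n ∧ b₀ n ≤ h n ∧ b₀ (n + 1) ≤ 2 * b₀ n) (hJ : J + 1 ≤ N)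
    (hT : ∀ n, N ≤ n → (2 : ℝ) ^ l ≤ h n) (n : ℕ) :
    1 ≤ nb b₀ J N l n ∧ nb b₀ J N l n ≤ h n ∧ nb b₀ J N l (n + 1) ≤ 2 * nb b₀ J N l n := by
  obtain ⟨h1, h2, h3⟩ := hb n
  have h4 := hh n
  have hp : ∀ k : ℕ, (1 : ℝ) ≤ 2 ^ k := fun k => one_le_pow₀ (by norm_num)
  unfold nb
  by_cases c1 : n < J
  · rw [if_pos c1]
    refine ⟨h1, h2, ?_⟩
    by_cases c2 : n + 1 < J
    · rw [if_pos c2]
      exact h3
    · rw [if_neg c2, if_pos (by omega)]
      linarith
  · rw [if_neg c1, if_neg (by omega : ¬ n + 1 < J)]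
    by_cases c2 : n < N
    · rw [if_pos c2]
      refine ⟨le_rfl, h4, ?_⟩
      by_cases c3 : n + 1 < N
      · rw [if_pos c3]
        norm_num
      · rw [if_neg c3, if_pos (by omega)]
        have : n + 1 - N = 0 := by omega
        rw [this]
        norm_num
    · rw [if_neg c2, if_neg (by omega : ¬ n + 1 < N)]
      by_cases c3 : n ≤ N + l
      · rw [if_pos c3]
        refine ⟨hp _, ?_, ?_⟩
        · refine le_trans ?_ (hT n (by omega))
          exact pow_le_pow_right₀ (by norm_num) (by omega)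
        · by_cases c4 : n + 1 ≤ N + l
          · rw [if_pos c4]
            have : n + 1 - N = (n - N) + 1 := by omega
            rw [this, pow_succ]
            linarith
          · rw [if_neg c4]
            have := hp (n - N)
            linarith
      · rw [if_neg c3, if_neg (by omega)]
        exact ⟨le_rfl, h4, by norm_num⟩

end DBL_

open DBL_ in
/-- DBL. -/
theorem p_DBL (h1 : T_PRE) : T_DBL := by
  intro h hh hlim l δ hδ
  refine ⟨?_, ?_⟩
  · have e : {b : Wt h | ∃ N, ∀ i ≤ l, (1 - δ) * 2 ^ i * b.1 N < b.1 (N + i)} =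
        ⋃ N : ℕ, ⋂ i ∈ Finset.range (l + 1),
          {b : Wt h | (1 - δ) * 2 ^ i * b.1 N < b.1 (N + i)} := by
      ext b
      constructor
      · rintro ⟨N, hN⟩
        refine Set.mem_iUnion.2 ⟨N, Set.mem_iInter₂.2 fun i hi => ?_⟩
        exact hN i (Nat.lt_succ_iff.1 (Finset.mem_range.1 hi))
      · intro hb
        obtain ⟨N, hN⟩ := Set.mem_iUnion.1 hb
        exact ⟨N, fun i hi =>
          (Set.mem_iInter₂.1 hN) i (Finset.mem_range.2 (Nat.lt_succ_iff.2 hi))⟩
    rw [e]
    refine isOpen_iUnion fun N => isOpen_biInter_finset fun i _ => ?_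
    exact isOpen_lt (continuous_const.mul ((continuous_apply N).comp continuous_subtype_val))
      ((continuous_apply (N + i)).comp continuous_subtype_val)
  · rw [dense_iff_inter_open]
    rintro U hU ⟨b₀, hb₀⟩
    obtain ⟨J, hJ⟩ := h1 h U hU b₀ hb₀
    obtain ⟨N0, hN0⟩ := eventually_atTop.1 (hlim.eventually_ge_atTop ((2 : ℝ) ^ l))
    have hmem := nb_mem (N := J + 1 + N0) (J := J) (l := l) hh (fun n => b₀.2 n) (by omega)
      (fun n hn => hN0 n (by omega))
    refine ⟨⟨nb b₀.1 J (J + 1 + N0) l, hmem⟩, hJ _ ?_, J + 1 + N0, ?_⟩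
    · intro n hn
      show nb b₀.1 J (J + 1 + N0) l n = b₀.1 n
      unfold nb
      rw [if_pos hn]
    · intro i hi
      show (1 - δ) * 2 ^ i * nb b₀.1 J (J + 1 + N0) l (J + 1 + N0) <
        nb b₀.1 J (J + 1 + N0) l (J + 1 + N0 + i)
      have hp : (0 : ℝ) < 2 ^ i := by positivity
      have e1 : nb b₀.1 J (J + 1 + N0) l (J + 1 + N0) = 1 := by
        unfold nb
        rw [if_neg (by omega), if_neg (by omega), if_pos (by omega), Nat.sub_self, pow_zero]
      have e2 : nb b₀.1 J (J + 1 + N0) l (J + 1 + N0 + i) = 2 ^ i := by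
        unfold nb
        rw [if_neg (by omega), if_neg (by omega), if_pos (by omega), Nat.add_sub_cancel_left]
      rw [e1, e2]
      nlinarith

end Pool.Agent.CPG
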