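import Pool.Agent.CPG.Targets

set_option autoImplicit false

/-!
# CPG, DNS: a dense set of weights
-/

namespace Pool.Agent.CPG

open Polynomial Filter Topology
open Pool.Agent.CycP Pool.Agent.CPW

namespace DNS_

/-- the new weight -/
noncomputable def nb (b₀ : ℕ → ℝ) (p : ℕ → ℕ) (J Y M n : ℕ) : ℝ :=
  if n < J then b₀ n else if n < Y then 1 else if n < M then 3 / 2 * 2 ^ p n else 1

theorem nb_mem {h b₀ : ℕ → ℝ} {p : ℕ → ℕ} {J Y M T : ℕ} (hh : ∀ n, 1 ≤ h n)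
    (hb : ∀ n, 1 ≤ b₀ n ∧ b₀ n ≤ h n ∧ b₀ (n + 1) ≤ 2 * b₀ n) (hJ : J + 1 ≤ Y)
    (p0 : p Y = 0) (p1 : ∀ n, Y ≤ n → p (n + 1) ≤ p n + 1) (p2 : ∀ n, p n ≤ T)
    (hT : ∀ n, Y ≤ n → 2 * 2 ^ T ≤ h n) (n : ℕ) :
    1 ≤ nb b₀ p J Y M n ∧ nb b₀ p J Y M n ≤ h n ∧
      nb b₀ p J Y M (n + 1) ≤ 2 * nb b₀ p J Y M n := by
  obtain ⟨h1, h2, h3⟩ := hb n
  have h4 := hh n
  have hp : ∀ k, (1 : ℝ) ≤ 2 ^ p k := fun k => one_le_pow₀ (by norm_num)
  have hpn := hp n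
  unfold nb
  by_cases c1 : n < J
  · rw [if_pos c1]
    refine ⟨h1, h2, ?_⟩
    by_cases c2 : n + 1 < J
    · rw [if_pos c2]
      exact h3
    · rw [if_neg c2, if_pos (by omega)]
      linarith
  · rw [if_neg c1]
    by_cases c2 : n < Y
    · rw [if_pos c2]
      refine ⟨le_rfl, h4, ?_⟩
      rw [if_neg (by omega)]
      by_cases c3 : n + 1 < Y
      · rw [if_pos c3]
        norm_num
      · rw [if_neg c3]
        have : n + 1 = Y := by omega
        rw [this, p0]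
        split_ifs <;> norm_num
    · rw [if_neg c2, if_neg (by omega : ¬ n + 1 < J), if_neg (by omega : ¬ n + 1 < Y)]
      by_cases c3 : n < M
      · rw [if_pos c3]
        refine ⟨by linarith, ?_, ?_⟩
        · refine le_trans ?_ (hT n (by omega))
          have h5 : (2 : ℝ) ^ p n ≤ 2 ^ T := pow_le_pow_right₀ (by norm_num) (p2 n)
          linarith
        · by_cases c4 : n + 1 < M
          · rw [if_pos c4]
            have h5 : (2 : ℝ) ^ p (n + 1) ≤ 2 ^ (p n + 1) :=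
              pow_le_pow_right₀ (by norm_num) (p1 n (by omega))
            rw [pow_succ] at h5
            linarith
          · rw [if_neg c4]
            linarith
      · rw [if_neg c3, if_neg (by omega : ¬ n + 1 < M)]
        exact ⟨le_rfl, h4, by norm_num⟩

end DNS_

open DNS_ in
/-- DNS. -/
theorem p_DNS (h1 : T_PRE) (h2 : T_PAT) : T_DNS := by
  intro h hh hlim N L hL
  rw [dense_iff_inter_open]
  rintro U hU ⟨b₀, hb₀⟩
  obtain ⟨J, hJ⟩ := h1 h U hU b₀ hb₀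
  obtain ⟨Y0, hY0⟩ := eventually_atTop.1 (hlim.eventually_ge_atTop
    (2 * 2 ^ (5 * (sq L).Z L.length + 8 * L.length + 63) : ℝ))
  set K := L.length with hK
  set Z := (sq L).Z K with hZ
  obtain ⟨Y, hY⟩ : ∃ Y : ℕ, Y = J + 1 + N K Z + (5 * Z + 9 * K + 70) * Z + Y0 := ⟨_, rfl⟩
  obtain ⟨g, hg⟩ : ∃ g : ℕ, g = Y + (4 * Z + 8 * K + 60) + (3 * Z + 6 * K + 47) + 4 * Z :=
    ⟨_, rfl⟩
  have hA : Adm N K Z Y g := ⟨by omega, by omega, by omega⟩
  obtain ⟨q0, q1, q2⟩ := h2 N L Y g hL hA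
  have hmem := nb_mem (M := N (K + 1) (3 * g)) (J := J) hh (fun n => b₀.2 n) (by omega) q0 q1 q2
    (fun n hn => hY0 n (by omega))
  refine ⟨⟨nb b₀.1 (pat L Y g) J Y (N (K + 1) (3 * g)), hmem⟩, hJ _ ?_, Y, g, hA, ?_⟩
  · intro n hn
    show nb b₀.1 (pat L Y g) J Y (N (K + 1) (3 * g)) n = b₀.1 n
    unfold nb
    rw [if_pos hn]
  · intro n hn1 hn2
    have hp : (0 : ℝ) < 2 ^ pat L Y g n := by positivity
    have e : nb b₀.1 (pat L Y g) J Y (N (K + 1) (3 * g)) n = 3 / 2 * 2 ^ pat L Y g n := by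
      unfold nb
      rw [if_neg (by omega), if_neg (by omega), if_pos hn2]
    show (2 : ℝ) ^ pat L Y g n < nb b₀.1 (pat L Y g) J Y (N (K + 1) (3 * g)) n ∧
      nb b₀.1 (pat L Y g) J Y (N (K + 1) (3 * g)) n < 2 * 2 ^ pat L Y g n
    rw [e]
    constructor <;> linarith

end Pool.Agent.CPG
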