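import Pool.Agent.CPG.Targets

set_option autoImplicit false

/-!
# CPG: extension of a finite list to an admissible sequence
-/

namespace Pool.Agent.CPG

open Pool.Agent.CPW

namespace EXT_

/-- the next `Y` -/
def Yf (L : List (ℕ × ℕ)) (i Z : ℕ) : ℕ :=
  if i < L.length then (L.getD i (0, 0)).1 else (5 * Z + 9 * i + 70) * Z

/-- the next `g` -/
def gf (L : List (ℕ × ℕ)) (i Z : ℕ) : ℕ :=
  if i < L.length then (L.getD i (0, 0)).2
  else Yf L i Z + (4 * Z + 8 * i + 60) + (3 * Z + 6 * i + 47) + 4 * Z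

/-- the sequence `Z` -/
def zf (L : List (ℕ × ℕ)) : ℕ → ℕ
  | 0 => 2
  | i + 1 => 3 * gf L i (zf L i)

/-- the sequence -/
def se (L : List (ℕ × ℕ)) : Sq where
  Z := zf L
  Y := fun i => Yf L i (zf L i)
  g := fun i => gf L i (zf L i)

theorem agr_z (L : List (ℕ × ℕ)) : ∀ i ≤ L.length, (sq L).Z i = zf L i := by
  intro i hi
  cases i with
  | zero => simp [sq, zf]
  | succ j =>
    have hj : j < L.length := hi
    simp only [sq, zf, gf, if_pos hj, Nat.add_sub_cancel, Nat.add_eq_zero_iff, one_ne_zero,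
      and_false, if_false]

theorem agr (L : List (ℕ × ℕ)) : Agr (sq L) (se L) L.length := by
  refine ⟨agr_z L, fun i hi => ?_⟩
  constructor
  · simp only [sq, se, Yf, if_pos hi]
  · simp only [sq, se, gf, if_pos hi]

theorem ok {N : ℕ → ℕ → ℕ} {L : List (ℕ × ℕ)} (h : OkL N L) : Ok (se L) where
  z0 := rfl
  zs := fun _ => rfl
  y1 := by
    intro K
    by_cases hK : K < L.length
    · have h1 := (h K hK).2.1
      rw [agr_z L K hK.le, ((agr L).2 K hK).1] at h1
      exact h1
    · simp only [se, Yf, if_neg hK]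
      exact le_rfl
  g1 := by
    intro K
    by_cases hK : K < L.length
    · have h1 := (h K hK).2.2
      rw [agr_z L K hK.le, ((agr L).2 K hK).1, ((agr L).2 K hK).2] at h1
      exact h1
    · simp only [se, gf, if_neg hK]
      exact le_rfl

end EXT_

theorem p_EXT : T_EXT := fun _ L h => ⟨EXT_.se L, EXT_.ok h, EXT_.agr L⟩

end Pool.Agent.CPG
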