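import Pool.Agent.CPG.Targets

set_option autoImplicit false

/-! CPG-FRN: growth of the weights. -/

namespace Pool.Agent.CPG

open Polynomial Filter Topology
open Pool.Agent.CycP Pool.Agent.CPW

namespace FRN_

lemma one (h : ℕ → ℝ) (hh : ∀ n, 1 ≤ h n)
    (ht : Tendsto (fun n : ℕ => Real.log (h n) / n) atTop (𝓝 0)) (K Z : ℕ) :
    ∃ N : ℕ, Z ≤ N ∧ ∀ n m, N ≤ n → n ≤ m * Z → (2 : ℝ) ^ (K + 2) * h n ≤ 2 ^ m := by
  rcases Nat.eq_zero_or_pos Z with rfl | hZ
  · refine ⟨1, by omega, ?_⟩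
    intro n m hn hm
    rw [mul_zero] at hm
    omega
  have hl2 : 0 < Real.log 2 := Real.log_pos (by norm_num)
  have hZ' : (0 : ℝ) < Z := by exact_mod_cast hZ
  have hε : 0 < Real.log 2 / (2 * Z) := by positivity
  obtain ⟨n1, hn1⟩ := eventually_atTop.1 (ht.eventually (gt_mem_nhds hε))
  refine ⟨n1 + 1 + 2 * (K + 2) * Z + Z, by omega, ?_⟩
  intro n m hn hm
  have hn0 : (0 : ℝ) < n := by exact_mod_cast (by omega : 0 < n)
  have g1 := hn1 n (by omega)
  rw [div_lt_iff₀ hn0] at g1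
  have g2 : 2 * ((K : ℝ) + 2) * Z ≤ n := by
    have : 2 * (K + 2) * Z ≤ n := by omega
    exact_mod_cast this
  have g3 : (n : ℝ) ≤ m * Z := by exact_mod_cast hm
  have hh0 : 0 < h n := lt_of_lt_of_le one_pos (hh n)
  have g4 : ((K : ℝ) + 2) * Real.log 2 ≤ Real.log 2 / (2 * Z) * n := by
    rw [div_mul_eq_mul_div, le_div_iff₀ (by positivity)]
    calc ((K : ℝ) + 2) * Real.log 2 * (2 * Z) = Real.log 2 * (2 * ((K : ℝ) + 2) * Z) := by ring
      _ ≤ Real.log 2 * n := mul_le_mul_of_nonneg_left g2 hl2.le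
  have g5 : Real.log 2 / (2 * Z) * n + Real.log 2 / (2 * Z) * n ≤ m * Real.log 2 := by
    have : Real.log 2 / (2 * Z) * n + Real.log 2 / (2 * Z) * n = Real.log 2 * n / Z := by
      field_simp
      ring
    rw [this, div_le_iff₀ hZ']
    calc Real.log 2 * n ≤ Real.log 2 * (m * Z) := mul_le_mul_of_nonneg_left g3 hl2.le
      _ = _ := by ring
  have g6 : Real.log ((2 : ℝ) ^ (K + 2) * h n) ≤ Real.log ((2 : ℝ) ^ m) := by
    rw [Real.log_mul (by positivity) hh0.ne', Real.log_pow, Real.log_pow]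
    push_cast
    linarith
  exact (Real.log_le_log_iff (by positivity) (by positivity)).1 g6

end FRN_

theorem p_FRN : T_FRN := by
  intro h hh ht
  choose N hN using FRN_.one h hh ht
  exact ⟨N, fun K Z => hN K Z⟩

end Pool.Agent.CPG
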