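import Pool.Agent.CPG.Targets
import Pool.Agent.CPW.P_XFA
import Pool.Agent.CPW.P_BNF
import Pool.Agent.CPW.P_BBA
import Pool.Agent.CPW.P_BBB

set_option autoImplicit false

/-!
# CPG, target LOW (helper66): comparison of two weights
-/

namespace Pool.Agent.CPG

open Polynomial Filter Topology
open Pool.Agent.CycP Pool.Agent.CPW

namespace LOW_

/-- every `n ≥ Z 0` is in one zone -/
theorem zone {Z : ℕ → ℕ} (h : ∀ K, K ≤ Z K) {n : ℕ} (hn : Z 0 ≤ n) :
    ∃ K, Z K ≤ n ∧ n < Z (K + 1) := by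
  by_contra hc
  push Not at hc
  have h1 : ∀ K, Z K ≤ n := by
    intro K
    induction K with
    | zero => exact hn
    | succ K ih => exact hc K ih
  have h2 := h1 (n + 1)
  have h3 := h (n + 1)
  omega

end LOW_

open LOW_ in
theorem p_LOW : T_LOW := by
  intro h b N s hF hs hb hN hP
  have XFA : T_XFA := p_XFA
  have BNF : T_BNF := p_BNF XFA
  have BBA : T_BBA := p_BBA XFA
  have BBB : T_BBB := p_BBB XFA BNF BBA
  obtain ⟨a1, a2, a3, -, -, -, a7⟩ := BBA s hs
  obtain ⟨-, -, -, -, b5, -⟩ := BBB s hs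
  have hZ : ∀ K, 2 ≤ s.Z K ∧ K ≤ s.Z K := fun K =>
    ⟨((XFA s hs).1 K).1, ((XFA s hs).1 K).2.1⟩
  have hZN : ∀ K, s.Z K ≤ N K (s.Z K) := fun K => (hF K (s.Z K)).1
  have hYg : ∀ K, s.Y K < s.g K := by
    intro K
    have := hs.g1 K
    omega
  have hgZ : ∀ K, s.g K ≤ s.Z (K + 1) := by
    intro K
    rw [hs.zs K]
    omega
  -- the zones
  have key : ∀ K n, s.Y K ≤ n → n < s.Z (K + 1) →
      (2 : ℝ) ^ bb s n < b n ∧ b n < 2 * 2 ^ bb s n := by
    intro K n h1 h2
    have h3 := hP K n h1 (lt_of_lt_of_le h2 (hZN (K + 1)))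
    rwa [a1 (K + 1) n h2] at h3
  refine ⟨?_, ?_, ?_⟩
  · intro n
    rcases lt_or_ge n (s.Z 0) with hn | hn
    · rw [a7 n hn, pow_zero]
      exact (hb n).1
    · obtain ⟨K, h1, h2⟩ := zone (fun K => (hZ K).2) hn
      rcases lt_or_ge n (s.Y K) with h3 | h3
      · rw [b5 K n h1 h3, pow_zero]
        exact (hb n).1
      · exact (key K n h3 h2).1.le
  · refine Set.infinite_of_forall_exists_gt (fun n => ⟨s.Y (n + 1), ?_, ?_⟩)
    · have h1 : s.Z (n + 1) ≤ s.Y (n + 1) := (hZN (n + 1)).trans (hN (n + 1))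
      have h2 := a3 (n + 1) (s.Y (n + 1)) h1 (hYg (n + 1))
      rw [Nat.sub_self, Nat.zero_min] at h2
      have h3 := (key (n + 1) (s.Y (n + 1)) le_rfl
        (lt_of_lt_of_le (hYg (n + 1)) (hgZ (n + 1)))).2
      rw [h2, pow_zero, mul_one] at h3
      exact h3.le
    · have h1 : s.Z (n + 1) ≤ s.Y (n + 1) := (hZN (n + 1)).trans (hN (n + 1))
      have h2 := (hZ (n + 1)).2
      omega
  · have hh : ∀ n, 0 ≤ h n := fun n => le_trans zero_le_one ((hb n).1.trans (hb n).2)
    have hS : 0 ≤ ∑ n ∈ Finset.range (N 0 2), h n := Finset.sum_nonneg (fun n _ => hh n)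
    refine ⟨2 + ∑ n ∈ Finset.range (N 0 2), h n, by linarith, ?_⟩
    intro n hn
    set H : ℝ := 2 + ∑ n ∈ Finset.range (N 0 2), h n with hH
    have hH2 : 2 ≤ H := by linarith
    have hpow : (1 : ℝ) ≤ 2 ^ bb s n := one_le_pow₀ (by norm_num)
    rcases lt_or_ge n (N 0 2) with h0 | h0
    · have h1 : h n ≤ ∑ n ∈ Finset.range (N 0 2), h n :=
        Finset.single_le_sum (fun i _ => hh i) (Finset.mem_range.2 h0)
      have h2 : b n ≤ H := by linarith [(hb n).2]
      exact h2.trans (le_mul_of_one_le_right (by linarith) hpow)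
    · have hz0 : s.Z 0 ≤ n := by
        have h1 := hZN 0
        rw [hs.z0] at h1 ⊢
        omega
      obtain ⟨K, h1, h2⟩ := zone (fun K => (hZ K).2) hz0
      rcases lt_or_ge n (s.Y K) with h3 | h3
      · have h4 : n < N K (s.Z K) := by
          by_contra h5
          exact hn K ⟨not_lt.1 h5, h3⟩
        cases K with
        | zero =>
          rw [hs.z0] at h4
          omega
        | succ K =>
          have h5 : s.Y K ≤ n := ((hYg K).le.trans (hgZ K)).trans h1
          have h6 := (hP K n h5 h4).2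
          rw [a2 (K + 1) n h1, pow_zero, mul_one] at h6
          calc b n ≤ 2 := h6.le
            _ ≤ H * 1 := by linarith
            _ ≤ H * 2 ^ bb s n := mul_le_mul_of_nonneg_left hpow (by linarith)
      · have h6 := (key K n h3 h2).2
        exact h6.le.trans (mul_le_mul_of_nonneg_right hH2 (by positivity))

end Pool.Agent.CPG
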