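import Pool.Agent.CPG.Targets
import Pool.Agent.CPW.P_PHC

set_option autoImplicit false

/-!
# CPG: MAS, the mass of the powers of the function in the free intervals (MP_01c4da_an)
-/

namespace Pool.Agent.CPG

open Polynomial Filter Topology
open Pool.Agent.CycP Pool.Agent.CPW

namespace MAS_

/-- the sum of the coefficients of a power of `PK` -/
theorem sum_coeff (h3 : T_NNC) (h4 : T_PKF) (s : Sq) (hs : Ok s) (K m M : ℕ) :
    ∑ n ∈ Finset.range M, |((PK s K) ^ m).coeff n| ≤ (1 / 32) ^ m := by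
  obtain ⟨e1, -, -, -, -, -, -, -, e2, -, -, -, -, -⟩ := h3
  have h5 := e1 (fun _ => 0) ((PK s K) ^ m) (Finset.range M ∪ ((PK s K) ^ m).support)
    Finset.subset_union_right
  have h6 := e2 (PK s K) m
  have h7 := (h4 s hs K).1
  have h8 : 0 ≤ NN (fun _ => 0) (PK s K) := by
    unfold NN
    exact Finset.sum_nonneg fun n _ => by positivity
  calc ∑ n ∈ Finset.range M, |((PK s K) ^ m).coeff n|
      ≤ ∑ n ∈ Finset.range M ∪ ((PK s K) ^ m).support, |((PK s K) ^ m).coeff n| :=
        Finset.sum_le_sum_of_subset_of_nonneg Finset.subset_union_left fun n _ _ => abs_nonneg _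
    _ = NN (fun _ => 0) ((PK s K) ^ m) := by
        rw [h5]
        refine Finset.sum_congr rfl fun n _ => ?_
        rw [pow_zero, mul_one]
    _ ≤ (1 / 32) ^ m := h6.trans (pow_le_pow_left₀ h8 h7 m)

theorem geo (M : ℕ) : ∑ K ∈ Finset.range M, (1 : ℝ) / 2 ^ (K + 2) ≤ 1 := by
  have h1 : ∑ K ∈ Finset.range M, (1 : ℝ) / 2 ^ (K + 2) = 1 / 2 - 1 / 2 ^ (M + 1) := by
    induction M with
    | zero => norm_num
    | succ M ih =>
      rw [Finset.sum_range_succ, ih]
      have : (2 : ℝ) ^ M ≠ 0 := by positivity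
      field_simp
      ring
  rw [h1]
  have : (0 : ℝ) ≤ 1 / 2 ^ (M + 1) := by positivity
  linarith

end MAS_

open MAS_ in
theorem p_MAS (h1 : T_XFA) (h3 : T_NNC) (h4 : T_PKF) (h5 : T_PHC) : T_MAS := by
  classical
  intro s hs h b N H hH hb hFr hfar m
  obtain ⟨f1, f2, f3, f4, f5, f6, -⟩ := h1 s hs
  obtain ⟨-, g2⟩ := h5 s hs
  obtain ⟨g3, g4⟩ := g2 m
  set c : ℕ → ℝ := fun n => ‖PowerSeries.coeff n (ph s ^ m)‖ with hc
  have hc0 : ∀ n, 0 ≤ c n := fun n => norm_nonneg _
  have hb0 : ∀ n, 0 ≤ b n := fun n => zero_le_one.trans (hb n).1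
  have hnn : ∀ n, 0 ≤ c n * b n := fun n => mul_nonneg (hc0 n) (hb0 n)
  -- one free interval
  have hK : ∀ K M : ℕ, ∑ n ∈ Finset.range M,
      (if N K (s.Z K) ≤ n ∧ n < s.Y K then c n * b n else 0) ≤
        (1 / 32) ^ m * (2 ^ m / 2 ^ (K + 2)) := by
    intro K M
    refine le_trans ?_ (mul_le_mul_of_nonneg_right (sum_coeff h3 h4 s hs K m M)
      (show (0 : ℝ) ≤ 2 ^ m / 2 ^ (K + 2) by positivity))
    rw [Finset.sum_mul]
    refine Finset.sum_le_sum fun n _ => ?_
    split_ifs with hn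
    · have hng : n < s.g K := by
        have := hs.g1 K
        omega
      have e1 : c n = |((PK s K) ^ m).coeff n| := by
        rw [hc]
        simp only
        rw [PHC_.coeff_pow s K m n (f5 K) f6 hng, Complex.norm_real, Real.norm_eq_abs]
      rw [e1]
      by_cases h0 : ((PK s K) ^ m).coeff n = 0
      · rw [h0, abs_zero, zero_mul, zero_mul]
      · refine mul_le_mul_of_nonneg_left ?_ (abs_nonneg _)
        have e2 := (h4 s hs K).2.2.1 m n h0
        have e3 := (hFr K (s.Z K)).2 n m hn.1 e2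
        rw [le_div_iff₀ (by positivity), mul_comm]
        refine le_trans ?_ e3
        exact mul_le_mul_of_nonneg_left (hb n).2 (by positivity)
    · positivity
  have hbd : ∀ M, ∑ n ∈ Finset.range M, c n * b n ≤ (H + 1) * (1 / 4) ^ m := by
    intro M
    have k1 : ∀ n ∈ Finset.range M, c n * b n ≤ H * (c n * 2 ^ bb s n) +
        ∑ K ∈ Finset.range M, (if N K (s.Z K) ≤ n ∧ n < s.Y K then c n * b n else 0) := by
      intro n hn
      rw [Finset.mem_range] at hn
      have k2 : 0 ≤ H * (c n * 2 ^ bb s n) :=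
        mul_nonneg hH (mul_nonneg (hc0 n) (by positivity))
      have k3 : ∀ K ∈ Finset.range M,
          0 ≤ (if N K (s.Z K) ≤ n ∧ n < s.Y K then c n * b n else 0) := by
        intro K _
        split_ifs
        · exact hnn n
        · exact le_rfl
      by_cases hex : ∃ K, N K (s.Z K) ≤ n ∧ n < s.Y K
      · obtain ⟨K, hK1⟩ := hex
        have k4 : K < M := by
          have a1 := (f1 K).2.1
          have a2 := (hFr K (s.Z K)).1
          omega
        have k5 := Finset.single_le_sum (f := fun K =>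
          (if N K (s.Z K) ≤ n ∧ n < s.Y K then c n * b n else 0)) k3 (Finset.mem_range.2 k4)
        simp only [if_pos hK1] at k5
        linarith
      · push Not at hex
        have k6 := hfar n fun K hcon => absurd hcon.2 (not_lt.2 (hex K hcon.1))
        have k7 : c n * b n ≤ c n * (H * 2 ^ bb s n) := mul_le_mul_of_nonneg_left k6 (hc0 n)
        have k8 := Finset.sum_nonneg k3
        have k9 : c n * (H * 2 ^ bb s n) = H * (c n * 2 ^ bb s n) := by ring
        linarith
    refine (Finset.sum_le_sum k1).trans ?_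
    rw [Finset.sum_add_distrib, ← Finset.mul_sum, Finset.sum_comm]
    have k10 : ∑ n ∈ Finset.range M, c n * 2 ^ bb s n ≤ (1 / 4) ^ m :=
      (g3.sum_le_tsum _ fun n _ => mul_nonneg (hc0 n) (by positivity)).trans g4
    have k11 : ∑ K ∈ Finset.range M, ∑ n ∈ Finset.range M,
        (if N K (s.Z K) ≤ n ∧ n < s.Y K then c n * b n else 0) ≤ (1 / 4) ^ m := by
      refine (Finset.sum_le_sum fun K _ => hK K M).trans ?_
      have e1 : ∀ K : ℕ, (1 / 32 : ℝ) ^ m * (2 ^ m / 2 ^ (K + 2)) =
          (1 / 16) ^ m * (1 / 2 ^ (K + 2)) := by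
        intro K
        have e2 : (1 / 32 : ℝ) ^ m * 2 ^ m = (1 / 16) ^ m := by
          rw [← mul_pow]; norm_num
        rw [← e2]
        ring
      rw [Finset.sum_congr rfl fun K _ => e1 K, ← Finset.mul_sum]
      calc (1 / 16 : ℝ) ^ m * ∑ K ∈ Finset.range M, 1 / 2 ^ (K + 2)
          ≤ (1 / 16) ^ m * 1 := mul_le_mul_of_nonneg_left (geo M) (by positivity)
        _ = (1 / 16) ^ m := mul_one _
        _ ≤ (1 / 4) ^ m := pow_le_pow_left₀ (by norm_num) (by norm_num) m
    have k12 : H * ∑ n ∈ Finset.range M, c n * 2 ^ bb s n ≤ H * (1 / 4) ^ m :=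
      mul_le_mul_of_nonneg_left k10 hH
    calc _ ≤ H * (1 / 4) ^ m + (1 / 4) ^ m := add_le_add k12 k11
      _ = (H + 1) * (1 / 4) ^ m := by ring
  exact ⟨summable_of_sum_range_le hnn hbd, Real.tsum_le_of_sum_range_le hnn hbd⟩

end Pool.Agent.CPG
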