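import Pool.Agent.CPG.Targets
import Pool.Agent.CPW.P_MLB

set_option autoImplicit false

/-!
# CPG: MLC, multipliers extend to the disc of radius two (almost doubling on long intervals)
-/

namespace Pool.Agent.CPG

open Polynomial Filter Topology
open Pool.Agent.CycP Pool.Agent.CPW

namespace MLC_

open Pool.Agent.CPW.MLB_

theorem dbl {b : ℕ → ℝ} (hd : ∀ n, b (n + 1) ≤ 2 * b n) (N i : ℕ) : b (N + i) ≤ 2 ^ i * b N := by
  induction i with
  | zero => simp
  | succ i ih =>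
    have h1 := hd (N + i)
    calc b (N + (i + 1)) ≤ 2 * b (N + i) := h1
      _ ≤ 2 * (2 ^ i * b N) := by linarith
      _ = 2 ^ (i + 1) * b N := by ring

/-- the inequality for the coefficients, up to `δ` -/
theorem ineqd {b : ℕ → ℝ} {B : AnSpace 1 (Metric.ball 0 1) L2} (hb : ∀ n, 1 ≤ b n)
    (hd : ∀ n, b (n + 1) ≤ 2 * b n) (hB : IsW b B)
    (hl : ∀ (l : ℕ) (δ : ℝ), 0 < δ → ∃ N, ∀ i ≤ l, (1 - δ) * 2 ^ i * b N < b (N + i))
    {h : (Fin 1 → ℂ) → ℂ} {M : L2 →L[ℂ] L2}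
    (hM : ∀ x, ∀ w ∈ Metric.ball (0 : Fin 1 → ℂ) 1, B.fn (M x) w = h w * B.fn x w)
    (Q X : ℕ → ℂ) (hX : ∀ k, X k = 2 ^ k * (M (B.poly 1) k / b k)) (l : ℕ) (δ : ℝ)
    (hδ : 0 < δ) (hδ1 : δ < 1) :
    (1 - δ) ^ 2 * ∑ j ∈ Finset.range (l + 1), ‖∑ i ∈ Finset.range (j + 1), Q i * X (j - i)‖ ^ 2 ≤
      ‖M‖ ^ 2 * ∑ i ∈ Finset.range (l + 1), ‖Q i‖ ^ 2 := by
  obtain ⟨N, hN⟩ := hl l δ hδ
  set q : ℕ → ℂ := fun i => Q i / 2 ^ i with hq
  set y := M (B.poly 1) with hy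
  set v := tv B N l q (B.poly 1) with hv
  have hMv : M v = tv B N l q y := by
    rw [hv, hy]
    unfold tv
    rw [map_sum]
    apply Finset.sum_congr rfl
    intro i _
    rw [map_smul, comm hM]
  have hbp : ∀ n, 0 < b n := fun n => by
    have := hb n
    linarith
  have hbN : 0 < b N := hbp N
  have hδ2 : 0 < 1 - δ := by linarith
  -- the norm of `v`
  have h1 : ‖v‖ ^ 2 ≤ b N ^ 2 * ∑ i ∈ Finset.range (l + 1), ‖Q i‖ ^ 2 := by
    have h2 : ‖v‖ ≤ √(b N ^ 2 * ∑ i ∈ Finset.range (l + 1), ‖Q i‖ ^ 2) := by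
      apply norm_le_of_sq (Real.sqrt_nonneg _)
      intro s
      rw [Real.sq_sqrt (by positivity)]
      have h3 : ∀ n, ‖v n‖ ^ 2 ≤ if N ≤ n ∧ n ≤ N + l then b N ^ 2 * ‖Q (n - N)‖ ^ 2 else 0 := by
        intro n
        rw [hv, tv_one hb hB]
        by_cases hn : N ≤ n ∧ n ≤ N + l
        · rw [if_pos hn, if_pos hn, hq]
          obtain ⟨i, rfl⟩ := Nat.exists_eq_add_of_le hn.1
          rw [Nat.add_sub_cancel_left]
          simp only
          have h2i : (0 : ℝ) < 2 ^ i := by positivity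
          have e : ‖Q i / 2 ^ i * (b (N + i) : ℂ)‖ ≤ b N * ‖Q i‖ := by
            rw [norm_mul, norm_div, norm_pow, Complex.norm_ofNat, Complex.norm_real,
              Real.norm_of_nonneg (hbp _).le]
            have h5 := dbl hd N i
            calc ‖Q i‖ / 2 ^ i * b (N + i) ≤ ‖Q i‖ / 2 ^ i * (2 ^ i * b N) :=
                  mul_le_mul_of_nonneg_left h5 (by positivity)
              _ = b N * ‖Q i‖ := by
                  field_simp
          calc _ ≤ (b N * ‖Q i‖) ^ 2 := pow_le_pow_left₀ (norm_nonneg _) e 2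
            _ = _ := by ring
        · rw [if_neg hn, if_neg hn, norm_zero]
          norm_num
      refine (Finset.sum_le_sum fun n _ => h3 n).trans ?_
      rw [← Finset.sum_filter, Finset.mul_sum]
      have h4 : ∑ a ∈ s with N ≤ a ∧ a ≤ N + l, b N ^ 2 * ‖Q (a - N)‖ ^ 2 =
          ∑ i ∈ (Finset.image (fun a => a - N) (s.filter fun a => N ≤ a ∧ a ≤ N + l)),
            b N ^ 2 * ‖Q i‖ ^ 2 := by
        rw [Finset.sum_image]
        intro a ha c hc hac
        have ha' := (Finset.mem_filter.1 (Finset.mem_coe.1 ha)).2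
        have hc' := (Finset.mem_filter.1 (Finset.mem_coe.1 hc)).2
        simp only at hac
        omega
      rw [h4]
      apply Finset.sum_le_sum_of_subset_of_nonneg
      · intro i hi
        obtain ⟨a, ha, rfl⟩ := Finset.mem_image.1 hi
        have ha' := (Finset.mem_filter.1 ha).2
        rw [Finset.mem_range]
        omega
      · intro i _ _
        positivity
    calc ‖v‖ ^ 2 ≤ (√(b N ^ 2 * ∑ i ∈ Finset.range (l + 1), ‖Q i‖ ^ 2)) ^ 2 :=
          pow_le_pow_left₀ (norm_nonneg _) h2 2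
      _ = _ := Real.sq_sqrt (by positivity)
  -- the norm of the product
  have h2 : b N ^ 2 * ((1 - δ) ^ 2 * ∑ j ∈ Finset.range (l + 1),
      ‖∑ i ∈ Finset.range (j + 1), Q i * X (j - i)‖ ^ 2) ≤ ‖M v‖ ^ 2 := by
    have h3 := sum_sq_le (M v) ((Finset.range (l + 1)).image fun j => N + j)
    rw [Finset.sum_image (fun a _ c _ hac => by simpa using hac)] at h3
    refine le_trans ?_ h3
    rw [Finset.mul_sum, Finset.mul_sum]
    apply Finset.sum_le_sum
    intro j hj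
    rw [Finset.mem_range] at hj
    have hj' : j ≤ l := by omega
    rw [hMv, tv_gen hb hB N l q y j hj']
    have h4 : ∑ i ∈ Finset.range (j + 1), Q i * X (j - i) =
        2 ^ j * ∑ i ∈ Finset.range (j + 1), q i * (y (j - i) / b (j - i)) := by
      rw [Finset.mul_sum]
      apply Finset.sum_congr rfl
      intro i hi
      rw [Finset.mem_range] at hi
      rw [hX, hq]
      obtain ⟨t, rfl⟩ := Nat.exists_eq_add_of_le (show i ≤ j by omega)
      rw [Nat.add_sub_cancel_left, pow_add]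
      have : (2 : ℂ) ^ i ≠ 0 := pow_ne_zero _ two_ne_zero
      field_simp
    rw [h4]
    set z := ∑ i ∈ Finset.range (j + 1), q i * (y (j - i) / b (j - i)) with hz
    have e1 : b N ^ 2 * ((1 - δ) ^ 2 * ‖(2 : ℂ) ^ j * z‖ ^ 2) =
        ((1 - δ) * 2 ^ j * b N * ‖z‖) ^ 2 := by
      rw [norm_mul, norm_pow, Complex.norm_ofNat]
      ring
    have e2 : ‖(b (N + j) : ℂ) * z‖ = b (N + j) * ‖z‖ := by
      rw [norm_mul, Complex.norm_real, Real.norm_of_nonneg (hbp _).le]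
    rw [e1, e2]
    refine pow_le_pow_left₀ (by positivity) ?_ 2
    exact mul_le_mul_of_nonneg_right (hN j hj').le (norm_nonneg _)
  have h3 : ‖M v‖ ^ 2 ≤ ‖M‖ ^ 2 * ‖v‖ ^ 2 := by
    rw [← mul_pow]
    exact pow_le_pow_left₀ (norm_nonneg _) (M.le_opNorm v) 2
  have h4 : b N ^ 2 * ((1 - δ) ^ 2 * ∑ j ∈ Finset.range (l + 1),
      ‖∑ i ∈ Finset.range (j + 1), Q i * X (j - i)‖ ^ 2) ≤
      b N ^ 2 * (‖M‖ ^ 2 * ∑ i ∈ Finset.range (l + 1), ‖Q i‖ ^ 2) := by
    calc _ ≤ ‖M v‖ ^ 2 := h2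
      _ ≤ ‖M‖ ^ 2 * ‖v‖ ^ 2 := h3
      _ ≤ ‖M‖ ^ 2 * (b N ^ 2 * ∑ i ∈ Finset.range (l + 1), ‖Q i‖ ^ 2) :=
        mul_le_mul_of_nonneg_left h1 (by positivity)
      _ = _ := by ring
  exact le_of_mul_le_mul_left h4 (by positivity)

/-- the inequality for the coefficients -/
theorem ineqc {b : ℕ → ℝ} {B : AnSpace 1 (Metric.ball 0 1) L2} (hb : ∀ n, 1 ≤ b n)
    (hd : ∀ n, b (n + 1) ≤ 2 * b n) (hB : IsW b B)
    (hl : ∀ (l : ℕ) (δ : ℝ), 0 < δ → ∃ N, ∀ i ≤ l, (1 - δ) * 2 ^ i * b N < b (N + i))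
    {h : (Fin 1 → ℂ) → ℂ} {M : L2 →L[ℂ] L2}
    (hM : ∀ x, ∀ w ∈ Metric.ball (0 : Fin 1 → ℂ) 1, B.fn (M x) w = h w * B.fn x w)
    (Q X : ℕ → ℂ) (hX : ∀ k, X k = 2 ^ k * (M (B.poly 1) k / b k)) (l : ℕ) :
    ∑ j ∈ Finset.range (l + 1), ‖∑ i ∈ Finset.range (j + 1), Q i * X (j - i)‖ ^ 2 ≤
      ‖M‖ ^ 2 * ∑ i ∈ Finset.range (l + 1), ‖Q i‖ ^ 2 := by
  set S : ℝ := ∑ j ∈ Finset.range (l + 1), ‖∑ i ∈ Finset.range (j + 1), Q i * X (j - i)‖ ^ 2
  have h1 : Tendsto (fun δ : ℝ => (1 - δ) ^ 2 * S) (𝓝[>] 0) (𝓝 ((1 - 0) ^ 2 * S)) := by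
    have hc : Continuous fun δ : ℝ => (1 - δ) ^ 2 * S := by fun_prop
    exact (hc.tendsto 0).mono_left nhdsWithin_le_nhds
  rw [sub_zero, one_pow, one_mul] at h1
  refine le_of_tendsto h1 ?_
  filter_upwards [Ioo_mem_nhdsGT (zero_lt_one' ℝ)] with δ hδ
  exact ineqd hb hd hB hl hM Q X hX l δ hδ.1 hδ.2

end MLC_

open Pool.Agent.CPW.MLB_ MLC_ in
/-- **MLC** -/
theorem p_MLC : T_MLC := by
  intro b B hb hd hB hl h hm
  obtain ⟨M, hM⟩ := clm hm
  set X : ℕ → ℂ := fun k => 2 ^ k * (M (B.poly 1) k / b k) with hX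
  have hin := fun Q l => ineqc hb hd hB hl hM Q X (fun k => rfl) l
  have hX2 : ∀ l, ∑ j ∈ Finset.range (l + 1), ‖X j‖ ^ 2 ≤ ‖M‖ ^ 2 := by
    intro l
    have h1 := hin (fun i => if i = 0 then 1 else 0) l
    have h2 : ∀ j, ∑ i ∈ Finset.range (j + 1), (if i = 0 then (1 : ℂ) else 0) * X (j - i) =
        X j := by
      intro j
      rw [Finset.sum_eq_single 0]
      · rw [if_pos rfl, one_mul, Nat.sub_zero]
      · intro i _ hi
        rw [if_neg hi, zero_mul]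
      · intro h0
        exact absurd (Finset.mem_range.2 (by omega)) h0
    have h3 : ∑ i ∈ Finset.range (l + 1), ‖(if i = 0 then (1 : ℂ) else 0)‖ ^ 2 = 1 := by
      rw [Finset.sum_eq_single 0]
      · rw [if_pos rfl, norm_one, one_pow]
      · intro i _ hi
        rw [if_neg hi, norm_zero, zero_pow two_ne_zero]
      · intro h0
        exact absurd (Finset.mem_range.2 (by omega)) h0
    rw [h3, mul_one, Finset.sum_congr rfl fun j _ => by rw [h2 j]] at h1
    exact h1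
  have hmem : Memℓp X 2 := by
    apply memlp_of_le (C := ‖M‖ ^ 2)
    intro s
    have h1 : s ⊆ Finset.range (s.sup id + 1) := by
      intro i hi
      have := Finset.le_sup (f := id) hi
      rw [Finset.mem_range]
      simp only [id] at this
      omega
    exact (Finset.sum_le_sum_of_subset_of_nonneg h1 fun _ _ _ => by positivity).trans (hX2 _)
  set x : HH := ⟨X, hmem⟩ with hxdef
  have hxX : ∀ k, x k = X k := fun k => rfl
  have hbd := bdd x ‖M‖ (norm_nonneg _) (fun Q l => hin Q l)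
  have h2z : ∀ z ∈ Metric.ball (0 : ℂ) 2, ‖z / 2‖ < 1 := by
    intro z hz
    rw [Metric.mem_ball, dist_zero_right] at hz
    rw [norm_div, Complex.norm_ofNat]
    linarith
  refine ⟨fun z => pv x (z / 2), ?_, ⟨‖M‖, fun z hz => hbd _ (h2z z hz)⟩, ?_⟩
  · have h1 := pv_differentiableOn x
    have h2 : DifferentiableOn ℂ (fun z : ℂ => z / 2) (Metric.ball 0 2) := by fun_prop
    refine h1.comp h2 fun z hz => ?_
    rw [Metric.mem_ball, dist_zero_right]
    exact h2z z hz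
  · intro w hw
    have h1 := hM (B.poly 1) w hw
    rw [B.fn_poly _ w hw, map_one, mul_one] at h1
    rw [← h1]
    have h2 := (hB.fn (M (B.poly 1)) w hw).tsum_eq
    rw [← h2]
    simp only [pv]
    apply tsum_congr
    intro n
    rw [hxX, hX, div_pow]
    simp only
    have : (2 : ℂ) ^ n ≠ 0 := pow_ne_zero _ two_ne_zero
    field_simp

end Pool.Agent.CPG
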