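import Pool.Agent.CPG.Targets
import Pool.Agent.CPW.P_OPT

set_option autoImplicit false

/-!
# CPG: the operator `f ↦ ∑ f_m (2 Φ)^m`, with a constant in the hypothesis (MP_01c4da_an)
-/

namespace Pool.Agent.CPG

open Filter Topology
open Pool.Agent.CycP Pool.Agent.CPW

theorem p_OPC : T_OPC := by
  intro b Φ C hb hΦ
  have hco : ∀ m n, (b n : ℂ) * PowerSeries.coeff n ((2 * Φ) ^ m) =
      (2 : ℂ) ^ m * (PowerSeries.coeff n (Φ ^ m) * (b n : ℂ)) := by
    intro m n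
    have h2 : (2 : PowerSeries ℂ) = PowerSeries.C (2 : ℂ) := by
      rw [map_ofNat]
    rw [mul_pow, h2, ← map_pow, PowerSeries.coeff_C_mul]
    ring
  have hno : ∀ m n, ‖(b n : ℂ) * PowerSeries.coeff n ((2 * Φ) ^ m)‖ =
      2 ^ m * (‖PowerSeries.coeff n (Φ ^ m)‖ * b n) := by
    intro m n
    rw [hco, norm_mul, norm_mul, norm_pow, Complex.norm_real, Complex.norm_ofNat,
      Real.norm_of_nonneg (by linarith [hb n])]
  have hsum : ∀ m, Summable fun n => ‖(b n : ℂ) * PowerSeries.coeff n ((2 * Φ) ^ m)‖ := by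
    intro m
    simp only [hno]
    exact (hΦ m).1.mul_left _
  have hle : ∀ m, ∑' n, ‖(b n : ℂ) * PowerSeries.coeff n ((2 * Φ) ^ m)‖ ≤
      C * (1 / 2) ^ m := by
    intro m
    simp only [hno]
    rw [tsum_mul_left]
    calc (2 : ℝ) ^ m * ∑' n, ‖PowerSeries.coeff n (Φ ^ m)‖ * b n ≤
          2 ^ m * (C * (1 / 4) ^ m) :=
          mul_le_mul_of_nonneg_left (hΦ m).2 (by positivity)
      _ = C * (2 ^ m * (1 / 4) ^ m) := by ring
      _ = C * (1 / 2) ^ m := by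
        rw [← mul_pow]
        norm_num
  let v : ℕ → L2 := fun m => ⟨fun n => (b n : ℂ) * PowerSeries.coeff n ((2 * Φ) ^ m),
    OPT_.mem (hsum m)⟩
  have hv : ∀ m n, (v m : L2) n = (b n : ℂ) * PowerSeries.coeff n ((2 * Φ) ^ m) :=
    fun m n => rfl
  have hvn : ∀ m, ‖v m‖ ≤ C * (1 / 2) ^ m :=
    fun m => OPT_.norm_le (hsum m) (hle m) (v m) (hv m)
  let A : ℕ → (L2 →L[ℂ] L2) := fun m => (OPT_.ev m).smulRight (v m)
  have hA : ∀ m, ‖A m‖ ≤ C * (1 / 2) ^ m := by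
    intro m
    have h1 : ‖A m‖ = ‖OPT_.ev m‖ * ‖v m‖ := ContinuousLinearMap.norm_smulRight_apply _ _
    rw [h1]
    calc ‖OPT_.ev m‖ * ‖v m‖ ≤ 1 * (C * (1 / 2) ^ m) :=
          mul_le_mul (OPT_.ev_norm m) (hvn m) (norm_nonneg _) zero_le_one
      _ = _ := one_mul _
  have hAs : Summable A := by
    refine Summable.of_norm_bounded (g := fun m : ℕ => C * ((1 : ℝ) / 2) ^ m) ?_ hA
    exact (summable_geometric_of_lt_one (by norm_num) (by norm_num)).mul_left C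
  refine ⟨∑' m, A m, ⟨fun f n => ?_⟩⟩
  have h1 : HasSum (fun m => A m f) ((∑' m, A m) f) :=
    ((ContinuousLinearMap.apply ℂ L2 f).hasSum hAs.hasSum)
  have h2 : HasSum (fun m => OPT_.ev n (A m f)) (OPT_.ev n ((∑' m, A m) f)) :=
    (OPT_.ev n).hasSum h1
  rw [OPT_.ev_apply] at h2
  have h3 : (fun m => OPT_.ev n (A m f)) =
      fun m => f m * ((b n : ℂ) * PowerSeries.coeff n ((2 * Φ) ^ m)) := by
    funext m
    rw [OPT_.ev_apply]
    change ((OPT_.ev m f) • (v m) : L2) n = f m * ((b n : ℂ) * PowerSeries.coeff n ((2 * Φ) ^ m))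
    rw [lp.coeFn_smul, Pi.smul_apply, smul_eq_mul, hv, OPT_.ev_apply]
  rw [h3] at h2
  exact h2

end Pool.Agent.CPG
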