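import Pool.Agent.CPG.Targets

set_option autoImplicit false

/-! # CPG, OPN: an open set of weights -/

namespace Pool.Agent.CPG

open Polynomial Filter Topology
open Pool.Agent.CycP Pool.Agent.CPW

namespace OPN_

theorem cont (h : ℕ → ℝ) (n : ℕ) : Continuous fun b : Wt h => b.1 n :=
  (continuous_apply n).comp continuous_subtype_val

theorem one (h : ℕ → ℝ) (N : ℕ → ℕ → ℕ) (L : List (ℕ × ℕ)) (Y g : ℕ) :
    IsOpen {b : Wt h | Cnt N b.1 L Y g} := by
  by_cases hP : Adm N L.length ((sq L).Z L.length) Y g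
  · have e : {b : Wt h | Cnt N b.1 L Y g} =
        ⋂ n ∈ Finset.Ico Y (N (L.length + 1) (3 * g)),
          ({b : Wt h | (2 : ℝ) ^ pat L Y g n < b.1 n} ∩
            {b : Wt h | b.1 n < 2 * 2 ^ pat L Y g n}) := by
      ext b
      simp only [Set.mem_setOf_eq, Set.mem_iInter, Set.mem_inter_iff, Finset.mem_Ico]
      constructor
      · intro hb n hn
        exact hb.2 n hn.1 hn.2
      · intro hb
        exact ⟨hP, fun n h1 h2 => hb n ⟨h1, h2⟩⟩
    rw [e]
    exact isOpen_biInter_finset fun n _ =>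
      (isOpen_lt continuous_const (cont h n)).inter (isOpen_lt (cont h n) continuous_const)
  · have e : {b : Wt h | Cnt N b.1 L Y g} = ∅ := by
      ext b
      simp only [Set.mem_setOf_eq, Set.mem_empty_iff_false, iff_false]
      exact fun hb => hP hb.1
    rw [e]
    exact isOpen_empty

end OPN_

theorem p_OPN : T_OPN := by
  intro h N L
  have e : {b : Wt h | ∃ Y g, Cnt N b.1 L Y g} =
      ⋃ (Y : ℕ) (g : ℕ), {b : Wt h | Cnt N b.1 L Y g} := by
    ext b
    simp only [Set.mem_setOf_eq, Set.mem_iUnion]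
  rw [e]
  exact isOpen_iUnion fun Y => isOpen_iUnion fun g => OPN_.one h N L Y g

end Pool.Agent.CPG
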