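import Pool.Agent.CPG.Targets
import Pool.Agent.CPW.P_XFA
import Pool.Agent.CPW.P_BNF
import Pool.Agent.CPW.P_BBA
import Pool.Agent.CPW.P_BBB

/-!
# PAT: facts on the pattern
-/

set_option autoImplicit false

namespace Pool.Agent.CPG

open Polynomial Filter Topology
open Pool.Agent.CycP Pool.Agent.CPW

namespace PAT_

theorem getD_left (L : List (ℕ × ℕ)) (p : ℕ × ℕ) (i : ℕ) (hi : i < L.length) :
    (L ++ [p]).getD i (0, 0) = L.getD i (0, 0) :=
  List.getD_append _ _ _ _ hi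

theorem getD_last (L : List (ℕ × ℕ)) (p : ℕ × ℕ) :
    (L ++ [p]).getD L.length (0, 0) = p := by
  simp [List.getD_eq_getElem?_getD]

theorem sqZ (L : List (ℕ × ℕ)) (p : ℕ × ℕ) (i : ℕ) (hi : i ≤ L.length) :
    (sq (L ++ [p])).Z i = (sq L).Z i := by
  show (if i = 0 then 2 else 3 * ((L ++ [p]).getD (i - 1) (0, 0)).2) =
    if i = 0 then 2 else 3 * (L.getD (i - 1) (0, 0)).2
  by_cases h : i = 0
  · rw [if_pos h, if_pos h]
  · rw [if_neg h, if_neg h, getD_left L p (i - 1) (by omega)]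

theorem sqY (L : List (ℕ × ℕ)) (p : ℕ × ℕ) (i : ℕ) (hi : i < L.length) :
    (sq (L ++ [p])).Y i = (sq L).Y i := by
  show ((L ++ [p]).getD i (0, 0)).1 = (L.getD i (0, 0)).1
  rw [getD_left L p i hi]

theorem sqg (L : List (ℕ × ℕ)) (p : ℕ × ℕ) (i : ℕ) (hi : i < L.length) :
    (sq (L ++ [p])).g i = (sq L).g i := by
  show ((L ++ [p]).getD i (0, 0)).2 = (L.getD i (0, 0)).2
  rw [getD_left L p i hi]

theorem sqY_last (L : List (ℕ × ℕ)) (p : ℕ × ℕ) : (sq (L ++ [p])).Y L.length = p.1 := by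
  show ((L ++ [p]).getD L.length (0, 0)).1 = p.1
  rw [getD_last]

theorem sqg_last (L : List (ℕ × ℕ)) (p : ℕ × ℕ) : (sq (L ++ [p])).g L.length = p.2 := by
  show ((L ++ [p]).getD L.length (0, 0)).2 = p.2
  rw [getD_last]

theorem sqZ_succ (L : List (ℕ × ℕ)) (p : ℕ × ℕ) :
    (sq (L ++ [p])).Z (L.length + 1) = 3 * p.2 := by
  show (if L.length + 1 = 0 then 2 else
    3 * ((L ++ [p]).getD (L.length + 1 - 1) (0, 0)).2) = 3 * p.2
  rw [if_neg (Nat.succ_ne_zero _), Nat.add_sub_cancel, getD_last]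

theorem okL_append {N : ℕ → ℕ → ℕ} {L : List (ℕ × ℕ)} {Y g : ℕ} (hL : OkL N L)
    (hA : Adm N L.length ((sq L).Z L.length) Y g) : OkL N (L ++ [(Y, g)]) := by
  intro i hi
  rw [List.length_append, List.length_singleton] at hi
  rcases Nat.lt_or_ge i L.length with h | h
  · rw [sqZ L _ i h.le, sqY L _ i h, sqg L _ i h]
    exact hL i h
  · have h3 : i = L.length := by omega
    rw [h3, sqZ L _ _ le_rfl, sqY_last, sqg_last]
    exact hA

end PAT_

open PAT_ in
/-- Facts on the pattern. -/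
theorem p_PAT (h1 : T_EXT) (h2 : T_CNG) : T_PAT := by
  intro N L Y g hL hA
  obtain ⟨s, hs, hag⟩ := h1 N (L ++ [(Y, g)]) (okL_append hL hA)
  have hlen : (L ++ [(Y, g)]).length = L.length + 1 := by simp
  rw [hlen] at hag
  have hpat : ∀ n, pat L Y g n = bK s (L.length + 1) n := h2 _ _ _ hag
  have hZ : s.Z L.length = (sq L).Z L.length := by
    rw [← hag.1 L.length (Nat.le_succ _), sqZ L _ _ le_rfl]
  have hZ1 : s.Z (L.length + 1) = 3 * g := by
    rw [← hag.1 (L.length + 1) le_rfl, sqZ_succ]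
  have hY : s.Y L.length = Y := by
    rw [← (hag.2 L.length (Nat.lt_succ_self _)).1, sqY_last]
  have hg : s.g L.length = g := by
    rw [← (hag.2 L.length (Nat.lt_succ_self _)).2, sqg_last]
  have XFA : T_XFA := p_XFA
  have BNF : T_BNF := p_BNF XFA
  have BBA : T_BBA := p_BBA XFA
  have BBB : T_BBB := p_BBB XFA BNF BBA
  obtain ⟨a1, a2, a3, -⟩ := BBA s hs
  obtain ⟨-, b2, b3, -⟩ := BBB s hs
  obtain ⟨-, hA2, hA3⟩ := hA
  rw [← hZ] at hA2 hA3 ⊢
  have hZY : s.Z L.length ≤ Y :=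
    (Nat.le_mul_of_pos_left _ (by omega)).trans hA2
  refine ⟨?_, fun n _ => ?_, fun n => ?_⟩
  · rw [hpat, a1 _ _ (by rw [hZ1]; omega), a3 L.length Y hZY (by rw [hg]; omega), hY,
      Nat.sub_self, Nat.zero_min]
  · rw [hpat, hpat]
    rcases Nat.lt_or_ge (n + 1) (s.Z (L.length + 1)) with h | h
    · rw [a1 _ _ h, a1 _ _ (by omega)]
      exact b2 n
    · rw [a2 _ _ h]
      exact Nat.zero_le _
  · rw [hpat]
    rcases Nat.lt_or_ge n (s.Z (L.length + 1)) with h | h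
    · rw [a1 _ _ h]
      have h4 := b3 L.length n h
      have h5 : Tp s L.length = 4 * s.Z L.length + 8 * L.length + 60 := rfl
      have h6 : Up s L.length = s.Z L.length + 3 := rfl
      omega
    · rw [a2 _ _ h]
      exact Nat.zero_le _

end Pool.Agent.CPG
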