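import Pool.Agent.CPG.Targets

set_option autoImplicit false

/-!
# CPG: target PRE

A neighbourhood in the space of weights contains everything with the same beginning.
-/

namespace Pool.Agent.CPG

open Filter Topology

/-- **PRE**: an open set of weights contains all weights with the same beginning. -/
theorem p_PRE : T_PRE := by
  intro h U hU b₀ hb₀
  obtain ⟨V, hV, rfl⟩ := isOpen_induced_iff.1 hU
  obtain ⟨I, u, hu, hs⟩ := isOpen_pi_iff.1 hV b₀.1 hb₀
  refine ⟨I.sup id + 1, fun b hb => hs ?_⟩
  intro n hn
  have hn' : n < I.sup id + 1 := Nat.lt_succ_of_le (Finset.le_sup (f := id) hn)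
  rw [hb n hn']
  exact (hu n hn).2

end Pool.Agent.CPG
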