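import Pool.Agent.CPG.Targets

set_option autoImplicit false

/-! # CPG-SEL: choice of the sequences by recursion on lists -/

namespace Pool.Agent.CPG

open Pool.Agent.CycP Pool.Agent.CPW

namespace SEL_

lemma getD_append_left (L : List (ℕ × ℕ)) (p : ℕ × ℕ) (i : ℕ) (hi : i < L.length) :
    (L ++ [p]).getD i (0, 0) = L.getD i (0, 0) := by
  simp only [List.getD_eq_getElem?_getD]
  rw [List.getElem?_append_left hi]

lemma getD_append_self (L : List (ℕ × ℕ)) (p : ℕ × ℕ) :
    (L ++ [p]).getD L.length (0, 0) = p := by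
  simp only [List.getD_eq_getElem?_getD]
  simp

lemma Z_append (L : List (ℕ × ℕ)) (p : ℕ × ℕ) (i : ℕ) (hi : i ≤ L.length) :
    (sq (L ++ [p])).Z i = (sq L).Z i := by
  unfold sq
  by_cases h : i = 0
  · simp [h]
  · simp only [h, if_false]
    rw [getD_append_left L p (i - 1) (by omega)]

lemma okL_nil (N : ℕ → ℕ → ℕ) : OkL N [] := by
  intro i hi
  simp at hi

lemma okL_append (N : ℕ → ℕ → ℕ) (L : List (ℕ × ℕ)) (Y g : ℕ) (h : OkL N L)
    (ha : Adm N L.length ((sq L).Z L.length) Y g) : OkL N (L ++ [(Y, g)]) := by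
  intro i hi
  rw [List.length_append, List.length_singleton] at hi
  rcases Nat.lt_succ_iff_lt_or_eq.mp hi with h1 | h1
  · have h2 := h i h1
    rw [Z_append L _ i h1.le]
    have h3 : (sq (L ++ [(Y, g)])).Y i = (sq L).Y i := by
      change ((L ++ [(Y, g)]).getD i (0, 0)).1 = (L.getD i (0, 0)).1
      rw [getD_append_left L _ i h1]
    have h4 : (sq (L ++ [(Y, g)])).g i = (sq L).g i := by
      change ((L ++ [(Y, g)]).getD i (0, 0)).2 = (L.getD i (0, 0)).2
      rw [getD_append_left L _ i h1]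
    rw [h3, h4]
    exact h2
  · subst h1
    rw [Z_append L _ _ le_rfl]
    have h3 : (sq (L ++ [(Y, g)])).Y L.length = Y := by
      change ((L ++ [(Y, g)]).getD L.length (0, 0)).1 = Y
      rw [getD_append_self]
    have h4 : (sq (L ++ [(Y, g)])).g L.length = g := by
      change ((L ++ [(Y, g)]).getD L.length (0, 0)).2 = g
      rw [getD_append_self]
    rw [h3, h4]
    exact ha

end SEL_

open SEL_

theorem p_SEL (h1 : T_CNG) : T_SEL := by
  intro N b H
  choose yc gc hc using H
  -- the recursion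
  let nx : {L : List (ℕ × ℕ) // OkL N L} → {L : List (ℕ × ℕ) // OkL N L} := fun P =>
    ⟨P.1 ++ [(yc P.1 P.2, gc P.1 P.2)], okL_append N P.1 _ _ P.2 (hc P.1 P.2).1⟩
  let F : ℕ → {L : List (ℕ × ℕ) // OkL N L} := fun K => Nat.rec ⟨[], okL_nil N⟩ (fun _ P => nx P) K
  have F0 : F 0 = ⟨[], okL_nil N⟩ := rfl
  have Fs : ∀ K, F (K + 1) = nx (F K) := fun K => rfl
  have hlen : ∀ K, (F K).1.length = K := by
    intro K
    induction K with
    | zero => rfl
    | succ K ih =>
      rw [Fs]
      change ((F K).1 ++ [_]).length = K + 1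
      rw [List.length_append, List.length_singleton, ih]
  let yy : ℕ → ℕ := fun K => yc (F K).1 (F K).2
  let gg : ℕ → ℕ := fun K => gc (F K).1 (F K).2
  have Fv : ∀ K, (F (K + 1)).1 = (F K).1 ++ [(yy K, gg K)] := fun K => rfl
  let s : Sq := ⟨fun K => if K = 0 then 2 else 3 * gg (K - 1), yy, gg⟩
  have hget : ∀ i d, (F (i + 1 + d)).1.getD i (0, 0) = (yy i, gg i) := by
    intro i d
    induction d with
    | zero =>
      rw [Nat.add_zero, Fv]
      have h := getD_append_self (F i).1 (yy i, gg i)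
      rw [hlen] at h
      exact h
    | succ d ih =>
      rw [← Nat.add_assoc, Fv, getD_append_left _ _ _ (by rw [hlen]; omega)]
      exact ih
  have hget' : ∀ i K, i < K → (F K).1.getD i (0, 0) = (yy i, gg i) := by
    intro i K hi
    obtain ⟨d, rfl⟩ := Nat.exists_eq_add_of_le (Nat.succ_le_of_lt hi)
    exact hget i d
  have hZ : ∀ i K, i ≤ K → (sq (F K).1).Z i = s.Z i := by
    intro i K hi
    change (if i = 0 then 2 else 3 * ((F K).1.getD (i - 1) (0, 0)).2) =
      (if i = 0 then 2 else 3 * gg (i - 1))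
    by_cases h0 : i = 0
    · rw [if_pos h0, if_pos h0]
    · rw [if_neg h0, if_neg h0, hget' (i - 1) K (by omega)]
  have hAgr : ∀ K, Agr (sq (F K).1) s K := by
    intro K
    refine ⟨fun i hi => hZ i K hi, fun i hi => ⟨?_, ?_⟩⟩
    · change ((F K).1.getD i (0, 0)).1 = yy i
      rw [hget' i K hi]
    · change ((F K).1.getD i (0, 0)).2 = gg i
      rw [hget' i K hi]
  have hC : ∀ K, Cnt N b (F K).1 (yy K) (gg K) := fun K => hc (F K).1 (F K).2
  have hA : ∀ K, Adm N K (s.Z K) (yy K) (gg K) := by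
    intro K
    have h := (hC K).1
    rw [hlen, hZ K K le_rfl] at h
    exact h
  have hZs : ∀ K, s.Z (K + 1) = 3 * s.g K := by
    intro K
    change (if K + 1 = 0 then 2 else 3 * gg (K + 1 - 1)) = 3 * gg K
    rw [if_neg (Nat.succ_ne_zero K), Nat.add_sub_cancel]
  refine ⟨s, ⟨rfl, hZs, fun K => (hA K).2.1, fun K => (hA K).2.2⟩, fun K => (hA K).1, ?_⟩
  intro K n hn1 hn2
  have h := (hC K).2 n hn1
  rw [hlen] at h
  rw [hZs] at hn2
  have h2 := h hn2
  have hp : pat (F K).1 (yy K) (gg K) n = bK s (K + 1) n := by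
    unfold pat
    rw [← Fv, hlen]
    exact h1 _ _ _ (hAgr (K + 1)) n
  rw [hp] at h2
  exact h2

end Pool.Agent.CPG
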