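import Pool.Agent.CPW.Asm
import Pool.Agent.CPG.Dens2
import Pool.Agent.CPG.P_CNG
import Pool.Agent.CPG.P_EXT
import Pool.Agent.CPG.P_PAT
import Pool.Agent.CPG.P_SEL
import Pool.Agent.CPG.P_LOW
import Pool.Agent.CPG.P_MAS
import Pool.Agent.CPG.P_FRN
import Pool.Agent.CPG.P_PRE
import Pool.Agent.CPG.P_OPN
import Pool.Agent.CPG.P_DNS
import Pool.Agent.CPG.P_DBL
import Pool.Agent.CPG.P_OPC
import Pool.Agent.CPG.P_CMC
import Pool.Agent.CPG.P_MXE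
import Pool.Agent.CPG.P_MLC

set_option autoImplicit false

/-!
# CPG: all hypotheses are discharged
-/

namespace Pool.Agent.CPG

open Filter Topology
open Pool.Agent.CycP Pool.Agent.CPW

theorem gen (h : ℕ → ℝ) (h1 : ∀ n, 1 ≤ h n) (h2 : Tendsto h atTop atTop)
    (h3 : Tendsto (fun n : ℕ => Real.log (h n) / n) atTop (𝓝 0)) :
    ∀ᶠ b in residual (Wt h), Good b.1 :=
  main (p_SEL p_CNG) p_LOW (p_MAS XFA p_NNC PKF PHC) p_OPC p_CMC p_MXE p_MLC p_FRN p_OPN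
    (p_DNS p_PRE (p_PAT p_EXT p_CNG)) (p_DBL p_PRE) CON PHC p_SPC p_CYC p_NCY MLA h h1 h2 h3

theorem dens (h : ℕ → ℝ) (h1 : ∀ n, 1 ≤ h n) (h2 : Tendsto h atTop atTop) :
    Dense {b : Wt h | Good b.1} := dense_of_gen p_PRE gen h h1 h2

end Pool.Agent.CPG
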