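import Pool.Agent.CPG.Targets
import Pool.Agent.CPW.Final

set_option autoImplicit false

/-!
# CPG: assembly
-/

namespace Pool.Agent.CPG

open Polynomial Filter Topology
open Pool.Agent.CycP Pool.Agent.CPW

/-- the multipliers of `H²(b)` are the bounded analytic functions on the disc of radius `2` -/
theorem mult_iff (q1 : T_MLA) (q2 : T_MLC) {b : ℕ → ℝ} {B : AnSpace 1 (Metric.ball 0 1) L2}
    (hB : IsW b B) (h1 : ∀ n, 1 ≤ b n) (h2 : ∀ n, b (n + 1) ≤ 2 * b n)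
    (h3 : ∀ (l : ℕ) (δ : ℝ), 0 < δ → ∃ N, ∀ i ≤ l, (1 - δ) * 2 ^ i * b N < b (N + i))
    (h : (Fin 1 → ℂ) → ℂ) :
    B.IsMultiplier h ↔ ∃ H : ℂ → ℂ, DifferentiableOn ℂ H (Metric.ball 0 2) ∧
      (∃ M : ℝ, ∀ z ∈ Metric.ball (0 : ℂ) 2, ‖H z‖ ≤ M) ∧
      ∀ w ∈ Metric.ball (0 : Fin 1 → ℂ) 1, h w = H (w 0) := by
  constructor
  · exact q2 b B h1 h2 hB h3 h
  · rintro ⟨H, hH, ⟨M, hM⟩, hw⟩ f
    obtain ⟨x, hx, -⟩ := q1 b h1 h2 H M hH hM B hB f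
    refine ⟨x, fun w hw2 => ?_⟩
    rw [hx w hw2, hw w hw2]

/-- the statement for one weight -/
def Good (b : ℕ → ℝ) : Prop :=
  ∃ (A B : AnSpace 1 (Metric.ball 0 1) L2) (φ : B.maxDomain → A.maxDomain) (T : L2 →L[ℂ] L2),
    Hardy (fun _ => 1) A ∧ Hardy b B ∧
    A.maxDomain = Metric.ball 0 1 ∧ B.maxDomain = Metric.ball 0 1 ∧
    (∀ g, B.MultCyclic g → B.Cyclic g) ∧
    (∀ h : (Fin 1 → ℂ) → ℂ, B.IsMultiplier h ↔ ∃ H : ℂ → ℂ,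
      DifferentiableOn ℂ H (Metric.ball 0 2) ∧
      (∃ M : ℝ, ∀ z ∈ Metric.ball (0 : ℂ) 2, ‖H z‖ ≤ M) ∧
      ∀ w ∈ Metric.ball (0 : Fin 1 → ℂ) 1, h w = H (w 0)) ∧
    (∀ (f : L2) (w : B.maxDomain), B.ext (T f) w = A.ext f (φ w)) ∧
    A.Cyclic (A.poly (1 - MvPolynomial.C (1 / 2) * MvPolynomial.X 0)) ∧
    ¬ B.Cyclic (T (A.poly (1 - MvPolynomial.C (1 / 2) * MvPolynomial.X 0))) ∧ ¬ B.CP

/-- the deterministic part -/
theorem det (p1 : T_SEL) (p2 : T_LOW) (p3 : T_MAS) (p4 : T_OPC) (p5 : T_CMC) (p6 : T_MXE)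
    (p7 : T_MLC) (q5 : T_CON) (q6 : T_PHC) (q7 : T_SPC) (q11 : T_CYC) (q12 : T_NCY)
    (q13 : T_MLA) (h : ℕ → ℝ) (N : ℕ → ℕ → ℕ) (hF : Fr h N) (b : ℕ → ℝ)
    (hb : ∀ n, 1 ≤ b n ∧ b n ≤ h n ∧ b (n + 1) ≤ 2 * b n)
    (hC : ∀ L, OkL N L → ∃ Y g, Cnt N b L Y g)
    (hD : ∀ (l : ℕ) (δ : ℝ), 0 < δ → ∃ N, ∀ i ≤ l, (1 - δ) * 2 ^ i * b N < b (N + i)) :
    Good b := by
  obtain ⟨s, hs, hN, hc⟩ := p1 N b hC
  have hb0 : ∀ n, 1 ≤ b n ∧ b n ≤ h n := fun n => ⟨(hb n).1, (hb n).2.1⟩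
  have hb1 : ∀ n, 1 ≤ b n := fun n => (hb n).1
  have hb2 : ∀ n, b (n + 1) ≤ 2 * b n := fun n => (hb n).2.2
  obtain ⟨hlo, hin, H, hH, hup⟩ := p2 h b N s hF hs hb0 hN hc
  have hM := p3 s hs h b N H hH hb0 hF hup
  obtain ⟨hP0, hP⟩ := q6 s hs
  have hP1 : Summable (fun n => ‖PowerSeries.coeff n (ph s)‖) ∧
      ∑' n, ‖PowerSeries.coeff n (ph s)‖ ≤ 1 / 4 := by
    obtain ⟨u1, u2⟩ := hP 1
    rw [pow_one] at u1 u2
    rw [pow_one] at u2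
    have hle : ∀ n, ‖PowerSeries.coeff n (ph s)‖ ≤ ‖PowerSeries.coeff n (ph s)‖ * 2 ^ bb s n :=
      fun n => le_mul_of_one_le_right (norm_nonneg _) (one_le_pow₀ (by norm_num))
    have h1 : Summable (fun n => ‖PowerSeries.coeff n (ph s)‖) :=
      Summable.of_nonneg_of_le (fun n => norm_nonneg _) hle u1
    exact ⟨h1, (h1.tsum_le_tsum hle u1).trans u2⟩
  obtain ⟨A, hA⟩ := q7 (fun _ => 1) (fun _ => le_rfl) (fun _ => by norm_num)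
  obtain ⟨B, hB⟩ := q7 b hb1 hb2
  have hAm : A.maxDomain = Metric.ball 0 1 := p6 _ A (fun _ => le_rfl) hA (by
    have : {n : ℕ | (1 : ℝ) ≤ 2} = Set.univ := by
      ext n
      simp
    rw [this]
    exact Set.infinite_univ)
  have hBm : B.maxDomain = Metric.ball 0 1 := p6 _ B hb1 hB hin
  obtain ⟨T, hT⟩ := p4 b (ph s) (H + 1) hb1 hM
  obtain ⟨φ, hφ⟩ := p5 b (ph s) (H + 1) A B T hb1 hA hB hT hM hP1 hBm hAm
  obtain ⟨hc1, hc2⟩ := q11 b A B hb1 hA hB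
  have hn := q12 b (ph s) A B T hb1 hA hB hT (fun p => by
    obtain ⟨n, hn⟩ := q5 s hs p
    exact ⟨n, hn.trans_le (mul_le_mul_of_nonneg_left (hlo n) (norm_nonneg _))⟩)
  refine ⟨A, B, φ, T, hardy_of hA, hardy_of hB, hAm, hBm,
    fun g hg => (graded_of hB).cyclic_of_multCyclic hg,
    mult_iff q13 p7 hB hb1 hb2 hD, hφ, hc1, hn, fun hcp => hn ?_⟩
  refine hcp 1 _ L2 _ _ inferInstance A φ (B.poly 1) T hc2 (fun f w => ?_) _ hc1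
  rw [hφ f w]
  have hw1 : B.ext (B.poly 1) w = 1 := by
    have hw : (w : Fin 1 → ℂ) ∈ B.maxDomain := w.2
    unfold AnSpace.ext
    rw [dif_pos hw]
    have := hw.choose_spec 1
    rw [this, map_one]
  rw [hw1, one_mul]

theorem main (p1 : T_SEL) (p2 : T_LOW) (p3 : T_MAS) (p4 : T_OPC) (p5 : T_CMC) (p6 : T_MXE)
    (p7 : T_MLC) (p8 : T_FRN) (p9 : T_OPN) (p10 : T_DNS) (p11 : T_DBL)
    (q5 : T_CON) (q6 : T_PHC) (q7 : T_SPC) (q11 : T_CYC) (q12 : T_NCY) (q13 : T_MLA)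
    (h : ℕ → ℝ) (h1 : ∀ n, 1 ≤ h n) (h2 : Tendsto h atTop atTop)
    (h3 : Tendsto (fun n : ℕ => Real.log (h n) / n) atTop (𝓝 0)) :
    ∀ᶠ b in residual (Wt h), Good b.1 := by
  obtain ⟨N, hN⟩ := p8 h h1 h3
  have e1 : ∀ᶠ b in residual (Wt h), ∀ L, OkL N L → ∃ Y g, Cnt N b.1 L Y g := by
    rw [eventually_countable_forall]
    intro L
    rw [eventually_imp_distrib_left]
    intro hL
    exact residual_of_dense_open (p9 h N L) (p10 h h1 h2 N L hL)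
  have e2 : ∀ᶠ b in residual (Wt h), ∀ l q : ℕ, ∃ N, ∀ i ≤ l,
      (1 - 1 / ((q : ℝ) + 1)) * 2 ^ i * b.1 N < b.1 (N + i) := by
    rw [eventually_countable_forall]
    intro l
    rw [eventually_countable_forall]
    intro q
    have := p11 h h1 h2 l (1 / ((q : ℝ) + 1)) (by positivity)
    exact residual_of_dense_open this.1 this.2
  filter_upwards [e1, e2] with b f1 f2
  refine det p1 p2 p3 p4 p5 p6 p7 q5 q6 q7 q11 q12 q13 h N hN b.1 b.2 f1 fun l δ hδ => ?_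
  obtain ⟨q, hq⟩ := exists_nat_one_div_lt hδ
  obtain ⟨M, hM⟩ := f2 l q
  refine ⟨M, fun i hi => lt_of_le_of_lt ?_ (hM i hi)⟩
  have hM0 : 0 ≤ b.1 M := zero_le_one.trans (b.2 M).1
  have : (1 - δ) * (2 : ℝ) ^ i ≤ (1 - 1 / ((q : ℝ) + 1)) * 2 ^ i :=
    mul_le_mul_of_nonneg_right (by linarith) (by positivity)
  exact mul_le_mul_of_nonneg_right this hM0

end Pool.Agent.CPG
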