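import Pool.Agent.CPG.Targets
import Pool.Agent.CPW.P_MXD

set_option autoImplicit false

namespace Pool.Agent.CPG

open Pool.Agent.CycP Pool.Agent.CPW

open Pool.Agent.CPW.MXD_ in
/-- **MXE** -/
theorem p_MXE : T_MXE := by
  classical
  intro b B hb hB hinf
  ext w
  constructor
  · rintro ⟨L, hL⟩
    by_contra hw
    have hw1 : 1 ≤ ‖w 0‖ := by
      by_contra h
      push Not at h
      apply hw
      rw [mem_ball_zero_iff, pi_norm_lt_iff one_pos]
      intro i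
      rw [Subsingleton.elim i 0]
      exact h
    obtain ⟨N, hN⟩ := exists_nat_gt (4 * ‖L‖ ^ 2)
    obtain ⟨I, hI1, hI2⟩ := hinf.exists_subset_card_eq N
    have hS : ((N : ℕ) : ℝ) ≤ ∑ n ∈ I, (‖w 0‖ ^ 2) ^ n := by
      have h1 : ∑ n ∈ I, (1 : ℝ) ≤ ∑ n ∈ I, (‖w 0‖ ^ 2) ^ n := by
        apply Finset.sum_le_sum
        intro n _
        exact one_le_pow₀ (one_le_pow₀ hw1)
      simpa [hI2] using h1
    have hnorm : ‖B.poly (tp I (w 0))‖ ^ 2 ≤ 4 * ∑ n ∈ I, (‖w 0‖ ^ 2) ^ n := by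
      have h1 := lp.norm_rpow_eq_tsum (p := 2) (by simp) (B.poly (tp I (w 0)))
      simp only [ENNReal.toReal_ofNat, Real.rpow_ofNat] at h1
      rw [h1, tsum_eq_sum (s := I), Finset.mul_sum]
      · apply Finset.sum_le_sum
        intro n hn
        have hbn : b n ≤ 2 := hI1 hn
        have hb1 : 1 ≤ b n := hb n
        have hb4 : b n ^ 2 ≤ 4 := by nlinarith
        rw [hB.poly, coeff_tp, if_pos hn]
        have e : ‖(b n : ℂ) * (starRingEnd ℂ (w 0)) ^ n‖ ^ 2 = b n ^ 2 * (‖w 0‖ ^ 2) ^ n := by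
          rw [norm_mul, norm_pow, RCLike.norm_conj, Complex.norm_real, Real.norm_eq_abs,
            mul_pow, sq_abs]
          ring
        rw [e]
        exact mul_le_mul_of_nonneg_right hb4 (by positivity)
      · intro n hn
        rw [hB.poly, coeff_tp, if_neg hn]
        simp
    have h2 := L.le_opNorm (B.poly (tp I (w 0)))
    rw [hL, eval_tp, Complex.norm_real, Real.norm_eq_abs] at h2
    set S := ∑ n ∈ I, (‖w 0‖ ^ 2) ^ n with hSd
    have hS0 : 0 ≤ S := le_trans (Nat.cast_nonneg N) hS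
    rw [abs_of_nonneg hS0] at h2
    have h3 : S ^ 2 ≤ ‖L‖ ^ 2 * (4 * S) := by
      calc S ^ 2 ≤ (‖L‖ * ‖B.poly (tp I (w 0))‖) ^ 2 := pow_le_pow_left₀ hS0 h2 2
        _ = ‖L‖ ^ 2 * ‖B.poly (tp I (w 0))‖ ^ 2 := by rw [mul_pow]
        _ ≤ ‖L‖ ^ 2 * (4 * S) := mul_le_mul_of_nonneg_left hnorm (by positivity)
    have hSpos : 0 < S := by
      have : (0 : ℝ) ≤ 4 * ‖L‖ ^ 2 := by positivity
      linarith
    have h4 : S ≤ 4 * ‖L‖ ^ 2 := by
      by_contra h
      push Not at h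
      nlinarith
    linarith
  · intro hw
    obtain ⟨C, hC⟩ := B.fn_bounded w hw
    let l : L2 →ₗ[ℂ] ℂ := (LinearMap.proj w).comp B.fn
    exact ⟨l.mkContinuousOfExistsBound ⟨C, hC⟩, fun P => B.fn_poly P w hw⟩

end Pool.Agent.CPG
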