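import Pool.Agent.CPW.Targets2

set_option autoImplicit false

/-!
# CPG: for generic weights the weighted Hardy space does not have (CP) (MP_01c4da_an, helper25)

THEOREM. `h n ≥ 1`, `h n → ∞`, `log h n = o(n)`; `Wt h` is the (compact) space of the weights `b`
with `1 ≤ b n ≤ h n`, `b (n+1) ≤ 2 b n`. For all `b` outside a meagre subset of `Wt h` the space
`H²(b)` does not have (CP).

Everything is built on project CPW (all blocks landed; `Pool/Agent/CPW/Asm.lean` contains the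
theorems `XFA BNF BBA BBB COE TTT RWW CON PKF BNR STA STB STC STD NRM PHC` and `p_NNC`, `p_ALG`,
which prove `T_XFA`, ...; the files `P_X.lean` may be imported).

CONVENTIONS. Each target `T_X` is to be proved as `theorem p_X (the targets named in its docstring)
: T_X` in the NEW file `Pool/Agent/CPG/P_X.lean` (import this file and what you need), namespace
`Pool.Agent.CPG`, helper lemmas in the sub-namespace `X_`.
-/

namespace Pool.Agent.CPG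

open Polynomial Filter Topology
open Pool.Agent.CycP Pool.Agent.CPW

/-- the space of the weights -/
def Wt (h : ℕ → ℝ) : Set (ℕ → ℝ) := {b | ∀ n, 1 ≤ b n ∧ b n ≤ h n ∧ b (n + 1) ≤ 2 * b n}

/-- the sequences `Z, Y, g` given by a list of pairs `(Y i, g i)` -/
def sq (L : List (ℕ × ℕ)) : Sq where
  Z := fun K => if K = 0 then 2 else 3 * (L.getD (K - 1) (0, 0)).2
  Y := fun K => (L.getD K (0, 0)).1
  g := fun K => (L.getD K (0, 0)).2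

/-- `s` and `s'` agree before stage `K` -/
def Agr (s s' : Sq) (K : ℕ) : Prop :=
  (∀ i ≤ K, s.Z i = s'.Z i) ∧ ∀ i < K, s.Y i = s'.Y i ∧ s.g i = s'.g i

/-- the conditions on `Y K`, `g K` at stage `K`, `Z = Z K` -/
def Adm (N : ℕ → ℕ → ℕ) (K Z Y g : ℕ) : Prop :=
  N K Z ≤ Y ∧ (5 * Z + 9 * K + 70) * Z ≤ Y ∧
    Y + (4 * Z + 8 * K + 60) + (3 * Z + 6 * K + 47) + 4 * Z ≤ g

/-- all entries of the list satisfy the conditions -/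
def OkL (N : ℕ → ℕ → ℕ) (L : List (ℕ × ℕ)) : Prop :=
  ∀ i < L.length, Adm N i ((sq L).Z i) ((sq L).Y i) ((sq L).g i)

/-- the pattern of stage `L.length`: exponents -/
def pat (L : List (ℕ × ℕ)) (Y g n : ℕ) : ℕ := bK (sq (L ++ [(Y, g)])) (L.length + 1) n

/-- `b` continues the list `L` by `(Y, g)`: it is close to the pattern on `[Y, N (K+1) (3 g))` -/
def Cnt (N : ℕ → ℕ → ℕ) (b : ℕ → ℝ) (L : List (ℕ × ℕ)) (Y g : ℕ) : Prop :=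
  Adm N L.length ((sq L).Z L.length) Y g ∧
    ∀ n, Y ≤ n → n < N (L.length + 1) (3 * g) →
      (2 : ℝ) ^ pat L Y g n < b n ∧ b n < 2 * 2 ^ pat L Y g n

/-- the free interval of stage `K` may begin at `N K (Z K)` -/
def Fr (h : ℕ → ℝ) (N : ℕ → ℕ → ℕ) : Prop :=
  ∀ K Z, Z ≤ N K Z ∧ ∀ n m, N K Z ≤ n → n ≤ m * Z → (2 : ℝ) ^ (K + 2) * h n ≤ 2 ^ m

/-! ### combinatorics -/

/-- **CNG** (40 min; nothing else used). `bK s K` depends only on the data before stage `K`. PROOF.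
First, by strong induction on `k ≤ 2 K`: `x s k = x s' k` (`x s (k+1)` uses `g (k/2)`, `k/2 < K`
if `k + 1 ≤ 2 K`, and `x (k/2)`); the same for `al` (`Ep s (k/2)` uses `Z (k/2)`), so for
`et s i`, `i < K`; then `bn s i n = bn s' i n` for `i ≤ K` (`bn s (k+1)` uses `Z, Y, g, Lp` at
`k/2 < K`). Then `bK s i = bK s' i` for `i ≤ K` by induction on `i` (`bK s (i+1)` uses
`Z i, Y i, g i, Tp i, Up i, x i, et i, bn i, bK i`, `i < K`). -/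
def T_CNG : Prop := ∀ (s s' : Sq) (K : ℕ), Agr s s' K → ∀ n, bK s K n = bK s' K n

/-- **EXT** (30 min). Every admissible list is the beginning of an `Ok` sequence. PROOF. Define the
pair `(Z i, (Y i, g i))` by recursion on `i`: `Z 0 = 2`, `Z (i+1) = 3 * g i`; `Y i`, `g i` are the
entries of `L` for `i < L.length`, otherwise `Y i = (5 Z i + 9 i + 70) Z i` and
`g i = Y i + (4 Z i + 8 i + 60) + (3 Z i + 6 i + 47) + 4 Z i`. -/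
def T_EXT : Prop := ∀ (N : ℕ → ℕ → ℕ) (L : List (ℕ × ℕ)), OkL N L →
  ∃ s : Sq, Ok s ∧ Agr (sq L) s L.length

/-- **PAT** (40 min; from EXT, CNG and the CPW facts XFA, BBA, BBB). Facts on the pattern, with
`K = L.length`, `Z = (sq L).Z K`. PROOF. `L' = L ++ [(Y, g)]` is admissible (`(sq L').Z i` is
`(sq L).Z i` for `i ≤ K`, the entries `i < K` are the same); take `s` from EXT for `L'`, so
`pat L Y g = bK s (K + 1)` by CNG, `s.Z K = Z`, `s.Y K = Y`, `s.g K = g`, `s.Z (K+1) = 3 g`. By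
BBA `bK s (K+1) n` is `bb s n` for `n < Z (K+1)` and `0` for `n ≥ Z (K+1)`; `bb s Y = min 0 ..`
(BBA (3)); `bb (n+1) ≤ bb n + 1` and `bb n ≤ Tp + Up = 5 Z + 8 K + 63` by BBB. -/
def T_PAT : Prop := ∀ (N : ℕ → ℕ → ℕ) (L : List (ℕ × ℕ)) (Y g : ℕ), OkL N L →
  Adm N L.length ((sq L).Z L.length) Y g →
    pat L Y g Y = 0 ∧ (∀ n, Y ≤ n → pat L Y g (n + 1) ≤ pat L Y g n + 1) ∧
    ∀ n, pat L Y g n ≤ 5 * (sq L).Z L.length + 8 * L.length + 63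

/-- **SEL** (50 min; from CNG). Choice of the sequences. PROOF. Recursion: lists `L K` with
`L 0 = []`, `OkL N (L K)`, `(L K).length = K`, `L (K+1) = L K ++ [(Y, g)]` where
`Cnt N b (L K) Y g` (then `OkL N (L (K+1))`). `s.Z 0 = 2`, `s.Z (K+1) = 3 g K`, `s.Y K`, `s.g K` the
pair added at stage `K` (the entry `K` of all `L j`, `j > K`). `Agr (sq (L (K+1))) s (K+1)`, so
`pat (L K) (s.Y K) (s.g K) n = bK s (K+1) n` by CNG. -/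
def T_SEL : Prop := ∀ (N : ℕ → ℕ → ℕ) (b : ℕ → ℝ),
  (∀ L, OkL N L → ∃ Y g, Cnt N b L Y g) →
  ∃ s : Sq, Ok s ∧ (∀ K, N K (s.Z K) ≤ s.Y K) ∧
    ∀ K n, s.Y K ≤ n → n < N (K + 1) (s.Z (K + 1)) →
      (2 : ℝ) ^ bK s (K + 1) n < b n ∧ b n < 2 * 2 ^ bK s (K + 1) n

/-- **LOW** (40 min; from the CPW facts XFA, BBA, BBB). Comparison of `b` with `2 ^ bb s`. PROOF.
`n < Z 0` or `Z K ≤ n < Z (K+1)` for some `K`. If `n < Y K`: `bb s n = 0` (BBB), so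
`2 ^ bb ≤ b n`; if `n` is not in `[N_K, Y K)` then `n < N_K = N K (Z K)`, and for `K ≥ 1`
`Y (K-1) ≤ Z K ≤ n`, so `b n < 2 * 2 ^ bK s K n = 2` (`bK s K n = 0` for `n ≥ Z K`, BBA), for
`K = 0` (also for `n < Z 0`) `n < N_0` and `b n ≤ h n ≤ H`, `H = 2 + ∑_(n < N 0 2) h n`. If
`Y K ≤ n`: `n < Z (K+1) ≤ N (K+1) (Z (K+1))` and `bK s (K+1) n = bb s n`. `b (Y K) < 2` for every
`K` (`bb s (Y K) = 0`) and `Y` is unbounded. -/
def T_LOW : Prop := ∀ (h b : ℕ → ℝ) (N : ℕ → ℕ → ℕ) (s : Sq), Fr h N → Ok s →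
  (∀ n, 1 ≤ b n ∧ b n ≤ h n) → (∀ K, N K (s.Z K) ≤ s.Y K) →
  (∀ K n, s.Y K ≤ n → n < N (K + 1) (s.Z (K + 1)) →
      (2 : ℝ) ^ bK s (K + 1) n < b n ∧ b n < 2 * 2 ^ bK s (K + 1) n) →
  (∀ n, (2 : ℝ) ^ bb s n ≤ b n) ∧ {n | b n ≤ 2}.Infinite ∧
    ∃ H : ℝ, 0 ≤ H ∧ ∀ n, (∀ K, ¬ (N K (s.Z K) ≤ n ∧ n < s.Y K)) → b n ≤ H * 2 ^ bb s n

/-! ### the powers of `φ` -/

/-- **MAS** (60 min; from the CPW facts XFA, BBA, NNC, PKF, PHC). PROOF. Let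
`N_K = N K (Z K) ≤ n < Y K` (`< g K`): `coeff n (ph ^ m) = coeff n (PK K ^ m)` (see
`CPW/P_PHC.lean`: `ph` and `PK K` agree modulo `X ^ g K`), if it is not `0` then `n ≤ m * Z K`
(PKF), so `b n ≤ h n ≤ 2 ^ m / 2 ^ (K + 2)`. `∑_n |coeff n (PK K ^ m)| ≤ (1/32) ^ m` (PKF, NNC).
So the sum over the `n < M` in free intervals (the interval of stage `K` begins at or after
`Z K ≥ K`) is at most `∑_K (1/32) ^ m 2 ^ m / 2 ^ (K + 2) ≤ (1/4) ^ m`; the other `n` contribute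
at most `H (1/4) ^ m` by PHC. -/
def T_MAS : Prop := ∀ (s : Sq), Ok s → ∀ (h b : ℕ → ℝ) (N : ℕ → ℕ → ℕ) (H : ℝ), 0 ≤ H →
  (∀ n, 1 ≤ b n ∧ b n ≤ h n) → Fr h N →
  (∀ n, (∀ K, ¬ (N K (s.Z K) ≤ n ∧ n < s.Y K)) → b n ≤ H * 2 ^ bb s n) →
  ∀ m, Summable (fun n => ‖PowerSeries.coeff n (ph s ^ m)‖ * b n) ∧
    ∑' n, ‖PowerSeries.coeff n (ph s ^ m)‖ * b n ≤ (H + 1) * (1 / 4) ^ m

/-! ### topology -/

/-- **FRN** (30 min). PROOF. For `Z ≥ 1` and large `n`: `(K+2) log 2 ≤ n log 2 / (2 Z)` and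
`log (h n) ≤ n log 2 / (2 Z)`, so `2 ^ (K+2) * h n ≤ 2 ^ (n / Z)` (real exponent) `≤ 2 ^ m` if
`n ≤ m Z`. For `Z = 0` take `N K 0 = 1` (`n ≤ m * 0` is impossible). -/
def T_FRN : Prop := ∀ h : ℕ → ℝ, (∀ n, 1 ≤ h n) →
  Tendsto (fun n : ℕ => Real.log (h n) / n) atTop (𝓝 0) → ∃ N, Fr h N

/-- **PRE** (25 min). A neighbourhood contains everything with the same beginning
(`isOpen_pi_iff`). -/
def T_PRE : Prop := ∀ (h : ℕ → ℝ) (U : Set (Wt h)), IsOpen U → ∀ b₀ ∈ U,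
  ∃ J : ℕ, ∀ b : Wt h, (∀ n < J, b.1 n = b₀.1 n) → b ∈ U

/-- **OPN** (20 min). For fixed `Y, g` finitely many strict inequalities between coordinates. -/
def T_OPN : Prop := ∀ (h : ℕ → ℝ) (N : ℕ → ℕ → ℕ) (L : List (ℕ × ℕ)),
  IsOpen {b : Wt h | ∃ Y g, Cnt N b.1 L Y g}

/-- **DNS** (50 min; from PRE, PAT). PROOF. `U` open, `b₀ ∈ U`, `J` from PRE, `K = L.length`,
`Z = (sq L).Z K`, `T = 5 Z + 8 K + 63`. Take `Y ≥ J + 1, N K Z, (5 Z + 9 K + 70) Z` with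
`2 * 2 ^ T ≤ h n` for all `n ≥ Y`, and `g = Y + (4 Z + 8 K + 60) + (3 Z + 6 K + 47) + 4 Z`. Let
`b n = b₀ n` for `n < J`, `1` for `J ≤ n < Y`, `3/2 * 2 ^ pat L Y g n` for
`Y ≤ n < N (K+1) (3 g)`, and `1` afterwards. PAT gives `b ∈ Wt h` (at `Y`: `3/2 ≤ 2 * 1`) and
`Cnt N b L Y g`. -/
def T_DNS : Prop := ∀ h : ℕ → ℝ, (∀ n, 1 ≤ h n) → Tendsto h atTop atTop →
  ∀ (N : ℕ → ℕ → ℕ) (L : List (ℕ × ℕ)), OkL N L → Dense {b : Wt h | ∃ Y g, Cnt N b.1 L Y g}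

/-- **DBL** (35 min; from PRE). PROOF. Open: strict inequalities between coordinates. Dense: copy
`b₀` up to `J`, then `1` up to `N > J` with `2 ^ l ≤ h n` for `n ≥ N`, then `b (N+i) = 2 ^ i` for
`i ≤ l`, then `1`. -/
def T_DBL : Prop := ∀ h : ℕ → ℝ, (∀ n, 1 ≤ h n) → Tendsto h atTop atTop →
  ∀ (l : ℕ) (δ : ℝ), 0 < δ →
    IsOpen {b : Wt h | ∃ N, ∀ i ≤ l, (1 - δ) * 2 ^ i * b.1 N < b.1 (N + i)} ∧
    Dense {b : Wt h | ∃ N, ∀ i ≤ l, (1 - δ) * 2 ^ i * b.1 N < b.1 (N + i)}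

/-! ### edits of landed CPW blocks -/

/-- **OPC** (15 min). Edit of `CPW/P_OPT.lean`: a constant `C`. -/
def T_OPC : Prop := ∀ (b : ℕ → ℝ) (Φ : PowerSeries ℂ) (C : ℝ), (∀ n, 1 ≤ b n) →
  (∀ m, Summable (fun n => ‖PowerSeries.coeff n (Φ ^ m)‖ * b n) ∧
    ∑' n, ‖PowerSeries.coeff n (Φ ^ m)‖ * b n ≤ C * (1 / 4) ^ m) →
  ∃ T : L2 →L[ℂ] L2, IsT b Φ T

/-- **CMC** (30 min). Edit of `CPW/P_CMP.lean`: the bound by `(1/4) ^ m` is replaced by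
`C * (1/4) ^ m`; `φ w = 2 ∑ coeff n Φ w^n` has modulus at most `1/2` by the new hypothesis on
`∑ ‖coeff n Φ‖`. -/
def T_CMC : Prop := ∀ (b : ℕ → ℝ) (Φ : PowerSeries ℂ) (C : ℝ) (A B : AnSpace 1 (Metric.ball 0 1) L2)
  (T : L2 →L[ℂ] L2), (∀ n, 1 ≤ b n) → IsW (fun _ => 1) A → IsW b B → IsT b Φ T →
  (∀ m, Summable (fun n => ‖PowerSeries.coeff n (Φ ^ m)‖ * b n) ∧
    ∑' n, ‖PowerSeries.coeff n (Φ ^ m)‖ * b n ≤ C * (1 / 4) ^ m) →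
  (Summable (fun n => ‖PowerSeries.coeff n Φ‖) ∧ ∑' n, ‖PowerSeries.coeff n Φ‖ ≤ 1 / 4) →
  B.maxDomain = Metric.ball 0 1 → A.maxDomain = Metric.ball 0 1 →
  ∃ φ : B.maxDomain → A.maxDomain, ∀ (f : L2) (w : B.maxDomain), B.ext (T f) w = A.ext f (φ w)

/-- **MXE** (15 min). Edit of `CPW/P_MXD.lean`: `b n ≤ 2` instead of `b n = 1`
(`‖poly P‖² ≤ 4 ∑ |w|^(2n)`, so `√|I| ≤ 2 ‖L‖`). -/
def T_MXE : Prop := ∀ (b : ℕ → ℝ) (B : AnSpace 1 (Metric.ball 0 1) L2), (∀ n, 1 ≤ b n) → IsW b B →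
  {n | b n ≤ 2}.Infinite → B.maxDomain = Metric.ball 0 1

/-- **MLC** (40 min). Edit of `CPW/P_MLB.lean`: almost doubling on long intervals. PROOF. The norm
of `h z^N q` gives `∑_(i ≤ l) |(c q)_i|² b (N+i)² ≤ K² ∑ |q_i|² b (N+i)²`, so
`(1-δ)² ∑_(i ≤ l) |(c q)_i|² 4^i ≤ K² ∑ |q_i|² 4^i` for every `δ > 0` (`b (N+i) ≤ 2^i b N`), hence
also with `δ = 0`; then as before. -/
def T_MLC : Prop := ∀ (b : ℕ → ℝ) (B : AnSpace 1 (Metric.ball 0 1) L2), (∀ n, 1 ≤ b n) →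
  (∀ n, b (n + 1) ≤ 2 * b n) → IsW b B →
  (∀ (l : ℕ) (δ : ℝ), 0 < δ → ∃ N, ∀ i ≤ l, (1 - δ) * 2 ^ i * b N < b (N + i)) →
  ∀ h : (Fin 1 → ℂ) → ℂ, B.IsMultiplier h → ∃ H : ℂ → ℂ, DifferentiableOn ℂ H (Metric.ball 0 2) ∧
    (∃ M : ℝ, ∀ z ∈ Metric.ball (0 : ℂ) 2, ‖H z‖ ≤ M) ∧
    ∀ w ∈ Metric.ball (0 : Fin 1 → ℂ) 1, h w = H (w 0)

end Pool.Agent.CPG
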